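import Mathlib
import Pool.Agent.H95.ProdMeas

/-!
# Quasi-critical 2d directed polymer: core definitions

* `step st a f` : one step of the walk with steps `st i` (i : Fin 4), followed by the mask `a`.
* `evo st a n w f` : evolution of the vector `f` through `n` layers of weights `w 0, …, w (n-1)`.
* `Tor M` : the torus in rotated coordinates `(u, v) = (x + y, x - y)`, with steps `(±1, ±1)`.
* `env ν` : i.i.d. weights with law `ν` on `ℝ≥0`, indexed by layers and sites.
-/

open MeasureTheory ProbabilityTheory Filter Topology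
open scoped ENNReal NNReal BigOperators

namespace Pool.Agent.H95.QC

section Core

variable {G : Type*} [Fintype G] [DecidableEq G] [AddCommGroup G]

/-- one step of the walk (average over the four neighbours), then multiplication by the mask `a` -/
noncomputable def step (st : Fin 4 → G) (a : G → ℝ) (f : G → ℝ) : G → ℝ :=
  fun x => a x * ((∑ i, f (x - st i)) / 4)

/-- evolution through `n` layers of weights -/
noncomputable def evo (st : Fin 4 → G) (a : G → ℝ) : ℕ → (ℕ → G → ℝ≥0) → (G → ℝ) → (G → ℝ)
  | 0, _, f => f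
  | n + 1, w, f => evo st a n (shift 1 w) (fun x => (w 0 x : ℝ) * step st a f x)

/-- total mass after `n` layers -/
noncomputable def Z (st : Fin 4 → G) (a : G → ℝ) (n : ℕ) (w : ℕ → G → ℝ≥0) (f : G → ℝ) : ℝ :=
  ∑ x, evo st a n w f x

/-- sum of squares -/
def sq (f : G → ℝ) : ℝ := ∑ x, f x ^ 2

/-- the point mass -/
def dl (x : G) : G → ℝ := Pi.single x 1

/-- the law of the i.i.d. environment: layers are independent, sites are independent -/
noncomputable def env (G : Type*) [Fintype G] (ν : Measure ℝ≥0) : Measure (ℕ → G → ℝ≥0) :=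
  iid (Measure.pi (fun _ : G => ν))

/-- expectation of a quadratic functional `q` after `T` layers of weights of mean one and
variance `s`, started from the vector `F` -/
noncomputable def qv (st : Fin 4 → G) (a : G → ℝ) (s : ℝ) (q : (G → ℝ) → ℝ) :
    ℕ → (G → ℝ) → ℝ
  | 0, F => q F
  | T + 1, F => qv st a s q T (step st a F)
      + s * ∑ x, (step st a F x) ^ 2 * qv st a s q T (dl x)

/-- the weights have mean one and variance `s` -/
structure Wt (ν : Measure ℝ≥0) (s : ℝ) : Prop where
  prob : IsProbabilityMeasure ν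
  nonneg : 0 ≤ s
  int1 : Integrable (fun y : ℝ≥0 => (y : ℝ)) ν
  int2 : Integrable (fun y : ℝ≥0 => (y : ℝ) ^ 2) ν
  mean : ∫ y, (y : ℝ) ∂ν = 1
  var : ∫ y, ((y : ℝ) - 1) ^ 2 ∂ν = s

end Core

section Torus

/-- the torus, in rotated coordinates -/
abbrev Tor (M : ℕ) : Type := ZMod M × ZMod M

/-- the four steps in rotated coordinates; the images of `(1,0), (-1,0), (0,1), (0,-1)` under
`(x, y) ↦ (x + y, x - y)` -/
def st (M : ℕ) : Fin 4 → Tor M := ![(1, 1), (-1, -1), (1, -1), (-1, 1)]

/-- `n`-step transition probabilities from the origin -/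
noncomputable def q (M n : ℕ) : Tor M → ℝ := (step (st M) 1)^[n] (dl 0)

/-- return probability of the walk at time `2 n` -/
noncomputable def uZ (n : ℕ) : ℝ := ((Nat.centralBinom n : ℝ) / 4 ^ n) ^ 2

/-- expected replica overlap -/
noncomputable def Rn (t : ℕ) : ℝ := ∑ n ∈ Finset.Icc 1 t, uZ n

end Torus

end Pool.Agent.H95.QC
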