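import Mathlib
import Pool.Agent.H95.QC.Defs

/-!
# Quasi-critical 2d directed polymer: statements of the self-contained modules

Every `Target…` is a `Prop`; a module delivers a theorem of that type.
-/

open MeasureTheory ProbabilityTheory Filter Topology
open scoped ENNReal NNReal BigOperators

namespace Pool.Agent.H95.QC

universe u

/-! ## Module K : the kernel on the torus -/

/-- K0: the return probabilities. (`uZ n = (C(2n,n)/4^n)^2`; induction gives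
`1/√(4n) ≤ C(2n,n)/4^n ≤ 1/√(3n+1)`.) -/
def TargetK0 : Prop :=
  uZ 0 = 1 ∧ ∀ n : ℕ, 1 ≤ n → 1 / (4 * (n : ℝ)) ≤ uZ n ∧ uZ n ≤ 1 / (3 * (n : ℝ))

/-- K1: `∑_x q_n(x)^2 = u(n)` when the walk does not wrap around. (Product structure:
`q M n (u, v) = b n u * b n v` with `b` the one-dimensional kernel on `ZMod M`.) -/
def TargetK1 : Prop :=
  ∀ M n : ℕ, ∀ [NeZero M], 2 * n < M → sq (q M n) = uZ n

/-- squared size of a site of the torus (smallest representatives) -/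
def nrm2 {M : ℕ} (x : Tor M) : ℝ := (x.1.valMinAbs : ℝ) ^ 2 + (x.2.valMinAbs : ℝ) ^ 2

/-- fourth-moment weight of a site -/
def nrm4 {M : ℕ} (x : Tor M) : ℝ := (x.1.valMinAbs : ℝ) ^ 4 + (x.2.valMinAbs : ℝ) ^ 4

/-- the support of `F` lies in the sites both of whose coordinates have parity `p` -/
def Par {M : ℕ} (p : ℕ) (F : Tor M → ℝ) : Prop :=
  ∀ x : Tor M, F x ≠ 0 → x.1.val % 2 = p % 2 ∧ x.2.val % 2 = p % 2

/-- K2: smoothing of a signed mass-zero vector. Proof: with `q_{2n}(0) - q_{2n}(z) ≤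
u(n) |z|²/(4n)` for even `z` (`b_{2n}(2k) ≥ b_{2n}(0) (1 - k²/n)`),
`sq (P^n F) = ∑ F(x) F(y) q_{2n}(x-y) = - ∑ F(x) F(y) (q_{2n}(0) - q_{2n}(x-y))`
and `|x-y|² ≤ 2|x|² + 2|y|²`, `u(n) ≤ 1/(3n)`. -/
def TargetK2 : Prop :=
  ∀ M n p : ℕ, ∀ [NeZero M], Even M → 1 ≤ n → 4 * n < M → ∀ F : Tor M → ℝ, Par p F →
    ∑ x, F x = 0 →
    sq ((step (st M) 1)^[n] F) ≤ 1 / (3 * (n : ℝ) ^ 2) * (∑ x, |F x|) * ∑ x, |F x| * nrm2 x

/-- K3: fourth moment growth, no support condition is needed because `valMinAbs` has the smallest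
absolute value among the representatives. -/
def TargetK3 : Prop :=
  ∀ M n : ℕ, ∀ [NeZero M], ∀ F : Tor M → ℝ, (∀ x, 0 ≤ F x) →
    ∑ x, (step (st M) 1)^[n] F x * nrm4 x ≤ 2 * ∑ x, F x * nrm4 x + 24 * (n : ℝ) ^ 2 * ∑ x, F x

/-- indicator of the half plane `u > 0` -/
noncomputable def hp (M : ℕ) : Tor M → ℝ := fun x => if 0 < x.1.valMinAbs then 1 else 0

/-- indicator of the half plane `u < 0` -/
noncomputable def hm (M : ℕ) : Tor M → ℝ := fun x => if x.1.valMinAbs < 0 then 1 else 0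

/-- K4: probability to be in the half plane at time `n` and to stay there for `T` more steps.
Proof: for the one-dimensional walk killed outside `u > 0`, `u ↦ u` is harmonic on `u ≥ 1`
(the value at the killed site `0` is `0`), hence `E[S_{n+T}; alive] = E[S_n^+] = E|S_n| / 2`;
Cauchy–Schwarz and `E S_{n+T}^2 = n + T`; `E|S_n| ≥ (E S_n²)^{3/2} / (E S_n⁴)^{1/2} ≥ √(n/3)`. -/
def TargetK4 : Prop :=
  ∃ c : ℝ, 0 < c ∧ ∀ M n T : ℕ, ∀ [NeZero M], 1 ≤ n → 2 * (n + T) < M →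
    c * (n / (n + T)) ≤ ∑ x, (step (st M) (hp M))^[T] (fun y => hp M y * q M n y) x ∧
    c * (n / (n + T)) ≤ ∑ x, (step (st M) (hm M))^[T] (fun y => hm M y * q M n y) x

/-! ## Module S : second moments (helper95) -/

/-- sums of squares of linear functionals -/
def IsSOS {G : Type} [Fintype G] (Q : (G → ℝ) → ℝ) : Prop :=
  ∃ (k : ℕ) (L : Fin k → G → ℝ), ∀ F, Q F = ∑ i, (∑ x, L i x * F x) ^ 2

def TargetS1 : Prop :=
  ∀ (G : Type) [Fintype G] [DecidableEq G] [AddCommGroup G] (st : Fin 4 → G) (a : G → ℝ)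
    (ν : Measure ℝ≥0) (s : ℝ), Wt ν s → ∀ Q : (G → ℝ) → ℝ, IsSOS Q → ∀ (T : ℕ) (F : G → ℝ),
    Integrable (fun w => Q (evo st a T w F)) (env G ν) ∧
    ∫ w, Q (evo st a T w F) ∂(env G ν) = qv st a s Q T F

/-! ## Module X : lower tail of a block partition function -/

/-- X: the lower tail. With `A⁺ = {u > 0}`, `A⁻ = {u < 0}`: `Z ≥ Z⁺ + Z⁻` (masked evolutions from
`hp * q`, `hm * q`), `Z⁺` and `Z⁻` are independent (disjoint sets of sites), have mean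
`≥ c n/(n+T)` (K4) and variance `≤ s ∑_{j ≤ T} Φ(T-j) u(n+j) ≤ C s / D_T` (use S1, and
`qv st hp s massSq T (dl x) ≤ qv st 1 s massSq T (dl x) = Φ(T) ≤ 1/D_T`). Then
`P(Z < p) ≤ P(Z⁺ < p) P(Z⁻ < p)` and Chebyshev. -/
def TargetX : Prop :=
  ∀ r : ℕ, ∃ p C : ℝ, 0 < p ∧ p < 1 ∧ 0 < C ∧ ∀ (M n T : ℕ) [NeZero M] (ν : Measure ℝ≥0) (s : ℝ),
    Wt ν s → 1 ≤ n → T ≤ r * n → 2 * (n + T) < M → 0 < 1 - s * Rn T →
    env (Tor M) ν {w | Z (st M) 1 T w (q M n) < p} ≤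
      ENNReal.ofReal ((C * (s / (1 - s * Rn T))) ^ 2)

/-! ## Module H : (2+δ)-moments -/

/-- H1: scalar inequality. Lyapunov: `E|Y|^{2+δ} ≤ (E Y²)^{1-δ} (E|Y|³)^δ`; `Y = a + y b`;
`E|Y|³ ≤ |a|³ + 3|a| s b² + M3 |b|³ ≤ (a² + D s b²)^{3/2}`; weighted AM–GM. -/
def TargetH1 : Prop :=
  ∀ (ν : Measure ℝ) [IsProbabilityMeasure ν] (s M3 δ D : ℝ), 0 < s → 0 < δ → δ ≤ 1 → 4 ≤ D →
    4 * M3 ^ 2 ≤ (D * s) ^ 3 → Integrable (fun y => |y| ^ 3) ν → ∫ y, y ∂ν = 0 →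
    ∫ y, y ^ 2 ∂ν = s → ∫ y, |y| ^ 3 ∂ν ≤ M3 → ∀ a b : ℝ,
    ∫ y, |a + y * b| ^ (2 + δ) ∂ν ≤ (a ^ 2 + (1 + 3 * δ / 2 * D) * s * b ^ 2) ^ ((2 + δ) / 2)

/-- H3: the polymer version. Induction on `T`: conditionally on the later layers the mass is
`A + ∑_x (w 0 x - 1) B_x`; apply H1 site by site and Minkowski in `L^{p/2}`, `p = 2 + δ`. -/
def TargetH3 : Prop :=
  ∀ (G : Type) [Fintype G] [DecidableEq G] [AddCommGroup G] (st : Fin 4 → G)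
    (ν : Measure ℝ≥0) (s M3 δ D : ℝ), Wt ν s → 0 < s → 0 < δ → δ ≤ 1 → 4 ≤ D →
    4 * M3 ^ 2 ≤ (D * s) ^ 3 → Integrable (fun y : ℝ≥0 => |(y : ℝ) - 1| ^ 3) ν →
    ∫ y, |(y : ℝ) - 1| ^ 3 ∂ν ≤ M3 → ∀ (T : ℕ) (F : G → ℝ),
    eLpNorm (fun w => Z st 1 T w F - ∑ x, F x) (ENNReal.ofReal (2 + δ)) (env G ν) ^ 2 ≤
      ENNReal.ofReal (qv st 1 ((1 + 3 * δ / 2 * D) * s) (fun F => (∑ x, F x) ^ 2) T F
        - (∑ x, F x) ^ 2)

/-! ## Module N : nondegeneracy, abstract form -/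

/-- N. Let `K = M/b` with `M` large. Truncate and centre: `S = ∑ Z_a`, `|Z_a| ≤ 2/√b`;
`E S⁴ ≤ 3 (E S²)² + ∑ E Z_a⁴ ≤ C/b²`; `E min(S², K) ≥ E S² - E S⁴ / K`; `x ↦ min(|x|, √K)` is
1-Lipschitz, so `E min((Xh-1)², K) ≥ c/b`; the mean of the clipped variable is `≤ C/√(M b)`;
the clipped variable is, off `{Xh < θ}`, a 2-Lipschitz function of `log Xh`. -/
def TargetN : Prop :=
  ∀ c₁ c₂ c₃ θ : ℝ, 0 < c₁ → 0 < c₂ → 0 < c₃ → 0 < θ → θ < 1 → ∃ ε b₀ c₄ : ℝ, 0 < ε ∧ 0 < b₀ ∧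
    0 < c₄ ∧ ∀ (Ω : Type u) [MeasurableSpace Ω] (P : Measure Ω) [IsProbabilityMeasure P] (J : ℕ)
    (X : Fin J → Ω → ℝ) (R : Ω → ℝ) (b : ℝ), b₀ ≤ b → (∀ a, Measurable (X a)) →
    iIndepFun X P → (∀ a, MemLp (X a) 2 P) → (∀ a, ∫ ω, X a ω ∂P = 0) →
    c₁ / b ≤ ∑ a, ∫ ω, X a ω ^ 2 ∂P → ∑ a, ∫ ω, X a ω ^ 2 ∂P ≤ c₂ / b →
    ∑ a, ∫ ω in {ω | 1 / √b < |X a ω|}, X a ω ^ 2 ∂P ≤ ε / b →
    Measurable R → MemLp R 2 P → ∫ ω, R ω ^ 2 ∂P ≤ ε / b → ∫ ω, R ω ∂P = 0 →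
    P.real {ω | 1 + ∑ a, X a ω + R ω < θ} ≤ c₃ / b ^ 2 →
    c₄ / b ≤ variance (fun ω => if θ ≤ 1 + ∑ a, X a ω + R ω then
      Real.log (1 + ∑ a, X a ω + R ω) else 0) P

/-! ## Module L : Lindeberg's theorem -/

def TargetL : Prop :=
  ∀ (Ω : Type u) [MeasurableSpace Ω] (P : Measure Ω) [IsProbabilityMeasure P] (K : ℕ → ℕ)
    (X : ℕ → ℕ → Ω → ℝ), (∀ n i, Measurable (X n i)) → (∀ n, iIndepFun (X n) P) →
    (∀ n i, MemLp (X n i) 2 P) → (∀ n i, ∫ ω, X n i ω ∂P = 0) →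
    Tendsto (fun n => ∑ i ∈ Finset.range (K n), ∫ ω, X n i ω ^ 2 ∂P) atTop (𝓝 1) →
    (∀ ε : ℝ, 0 < ε → Tendsto (fun n => ∑ i ∈ Finset.range (K n),
      ∫ ω in {ω | ε < |X n i ω|}, X n i ω ^ 2 ∂P) atTop (𝓝 0)) →
    TendstoInDistribution (fun n ω => ∑ i ∈ Finset.range (K n), X n i ω) atTop (id : ℝ → ℝ)
      (fun _ => P) (gaussianReal 0 1)

/-! ## Module B : the weights `exp(β ω - Λ(β))` -/

/-- logarithmic moment generating function -/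
noncomputable def Lam (μ : Measure ℝ) (β : ℝ) : ℝ := Real.log (∫ x, Real.exp (β * x) ∂μ)

/-- `σ² = exp(Λ(2β) - 2Λ(β)) - 1` -/
noncomputable def sig2 (μ : Measure ℝ) (β : ℝ) : ℝ :=
  Real.exp (Lam μ (2 * β) - 2 * Lam μ β) - 1

/-- the law of the weight `exp(β ω - Λ(β))` -/
noncomputable def wlaw (μ : Measure ℝ) (β : ℝ) : Measure ℝ≥0 :=
  μ.map (fun x => (⟨Real.exp (β * x - Lam μ β), (Real.exp_pos _).le⟩ : ℝ≥0))

/-- B. The third moment bound uses: `Λ(2β) - 2Λ(β)` is nondecreasing (secants of a convex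
function), so `σ² ≤ s₀` forces `β ≤ 1`; `σ² ≥ c β²` and `E (w-1)₊³ ≤ C β³` for `β ≤ 1`,
`E (w-1)₋³ ≤ E (w-1)² = σ²`. -/
def TargetB : Prop :=
  ∀ (μ : Measure ℝ) [IsProbabilityMeasure μ], Integrable (fun x => x ^ 2) μ → ∫ x, x ∂μ = 0 →
    ∫ x, x ^ 2 ∂μ = 1 → (∀ β : ℝ, 0 ≤ β → Integrable (fun x => Real.exp (β * x)) μ) →
    (∀ β : ℝ, 0 ≤ β → Wt (wlaw μ β) (sig2 μ β)) ∧
    ∃ C s₀ : ℝ, 0 < C ∧ 0 < s₀ ∧ ∀ β : ℝ, 0 ≤ β → sig2 μ β ≤ s₀ →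
      Integrable (fun y : ℝ≥0 => |(y : ℝ) - 1| ^ 3) (wlaw μ β) ∧
      ∫ y, |(y : ℝ) - 1| ^ 3 ∂(wlaw μ β) ≤ C * sig2 μ β

/-! ## Module T : from the path definition on `ℤ²` to the torus -/

/-- the four unit steps -/
def unitStep : Fin 4 → ℤ × ℤ := ![(1, 0), (-1, 0), (0, 1), (0, -1)]

/-- position at time `n` of the walk with steps `e 0, …, e (N-1)` started at the origin -/
def pos {N : ℕ} (e : Fin N → Fin 4) (n : ℕ) : ℤ × ℤ :=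
  ∑ i : Fin N, if i.val < n then unitStep (e i) else 0

/-- the partition function `E[exp(∑_{n=1}^N (β ω(n, S_n) - Λ))]`, the simple random walk
expectation being the average over the `4^N` step sequences -/
noncomputable def Wpath (ω : ℕ → ℤ × ℤ → ℝ) (β Λ : ℝ) (N : ℕ) : ℝ :=
  (∑ e : Fin N → Fin 4, Real.exp (∑ n ∈ Finset.Icc 1 N, (β * ω n (pos e n) - Λ))) / 4 ^ N

/-- the expected overlap `E^{⊗2} ∑_{n=1}^N 1{S¹_n = S²_n}` -/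
noncomputable def Rpath (N : ℕ) : ℝ :=
  (∑ e : Fin N → Fin 4, ∑ e' : Fin N → Fin 4,
    ∑ n ∈ Finset.Icc 1 N, if pos e n = pos e' n then (1 : ℝ) else 0) / (4 ^ N * 4 ^ N)

/-- T1 (may use K1): the overlap. -/
def TargetT1 : Prop := ∀ N : ℕ, Rpath N = Rn N

/-- T2: transfer of the partition function to the torus `Tor M`, `M` even and `M > 4N + 4`: put
`Φ ω k x = exp(β ω(k+1, sect x) - Λ)` with an injective `sect : Tor M → ℤ × ℤ` that inverts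
`(x, y) ↦ (x + y, x - y)` on the box `|x| + |y| ≤ N`. -/
def TargetT2 : Prop :=
  ∀ (Ω : Type u) [MeasurableSpace Ω] (P : Measure Ω) [IsProbabilityMeasure P] (μ : Measure ℝ)
    [IsProbabilityMeasure μ] (ω : ℕ → ℤ × ℤ → Ω → ℝ), (∀ n x, Measurable (ω n x)) →
    iIndepFun (fun p : ℕ × (ℤ × ℤ) => ω p.1 p.2) P → (∀ n x, P.map (ω n x) = μ) →
    ∀ (β : ℝ) (N M : ℕ) [NeZero M], Even M → 4 * N + 4 < M →
    ∃ Φ : Ω → ℕ → Tor M → ℝ≥0, Measurable Φ ∧ P.map Φ = env (Tor M) (wlaw μ β) ∧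
      ∀ o : Ω, Wpath (fun n x => ω n x o) β (Lam μ β) N = Z (st M) 1 N (Φ o) (dl 0)

end Pool.Agent.H95.QC
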