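import Mathlib
import Pool.Agent.H95.QC.Targets

/-!
# Renewal sequence of the second moment of the polymer
-/

open Finset BigOperators

namespace Pool.Agent.H95.QC

lemma sum_Icc_one (f : ℕ → ℝ) (m : ℕ) : ∑ j ∈ Icc 1 m, f j = ∑ k ∈ range m, f (k + 1) := by
  induction m with
  | zero => simp
  | succ m ih => rw [Finset.sum_Icc_succ_top (by omega), ih, Finset.sum_range_succ]

lemma uZ_nonneg (n : ℕ) : 0 ≤ uZ n := sq_nonneg _

lemma Rn_zero : Rn 0 = 0 := by simp [Rn]

lemma Rn_succ (n : ℕ) : Rn (n + 1) = Rn n + uZ (n + 1) := by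
  simp [Rn, Finset.sum_Icc_succ_top]

lemma Rn_mono {m n : ℕ} (h : m ≤ n) : Rn m ≤ Rn n := by
  induction n, h using Nat.le_induction with
  | base => exact le_rfl
  | succ n _ ih => rw [Rn_succ]; linarith [uZ_nonneg (n + 1)]

lemma Rn_nonneg (n : ℕ) : 0 ≤ Rn n := by
  have := Rn_mono (Nat.zero_le n); rwa [Rn_zero] at this

/-- kernel of the renewal equation -/
noncomputable def uh (s : ℝ) (n : ℕ) : ℝ := if n = 0 then 0 else s * uZ n

/-- renewal sequence -/
noncomputable def U (s : ℝ) : ℕ → ℝ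
  | 0 => 1
  | n + 1 => ∑ k : Fin (n + 1), uh s (n + 1 - k) * U s k

/-- renewal function -/
noncomputable def Phi (s : ℝ) (m : ℕ) : ℝ := ∑ k ∈ range (m + 1), U s k

lemma U_zero (s : ℝ) : U s 0 = 1 := by rw [U]

lemma U_succ (s : ℝ) (n : ℕ) : U s (n + 1) = ∑ k ∈ range (n + 1), uh s (n + 1 - k) * U s k := by
  rw [U, Finset.sum_range]

lemma uh_zero (s : ℝ) : uh s 0 = 0 := by simp [uh]

lemma uh_pos (s : ℝ) {n : ℕ} (h : n ≠ 0) : uh s n = s * uZ n := by simp [uh, h]

lemma uh_nonneg {s : ℝ} (hs : 0 ≤ s) (n : ℕ) : 0 ≤ uh s n := by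
  unfold uh; split
  · exact le_rfl
  · exact mul_nonneg hs (uZ_nonneg n)

lemma U_nonneg {s : ℝ} (hs : 0 ≤ s) (n : ℕ) : 0 ≤ U s n := by
  induction n using Nat.strong_induction_on with
  | _ n ih =>
    cases n with
    | zero => rw [U_zero]; norm_num
    | succ n =>
      rw [U_succ]
      exact Finset.sum_nonneg (fun k hk => mul_nonneg (uh_nonneg hs _) (ih k (Finset.mem_range.mp hk)))

lemma Phi_zero (s : ℝ) : Phi s 0 = 1 := by simp [Phi, U_zero]

lemma Phi_succ (s : ℝ) (m : ℕ) : Phi s (m + 1) = Phi s m + U s (m + 1) := by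
  simp [Phi, Finset.sum_range_succ]

lemma Phi_mono {s : ℝ} (hs : 0 ≤ s) {m n : ℕ} (h : m ≤ n) : Phi s m ≤ Phi s n := by
  induction n, h using Nat.le_induction with
  | base => exact le_rfl
  | succ n _ ih => rw [Phi_succ]; linarith [U_nonneg hs (n + 1)]

lemma one_le_Phi {s : ℝ} (hs : 0 ≤ s) (m : ℕ) : 1 ≤ Phi s m := by
  have := Phi_mono hs (Nat.zero_le m); rwa [Phi_zero] at this

lemma Phi_nonneg {s : ℝ} (hs : 0 ≤ s) (m : ℕ) : 0 ≤ Phi s m := by
  linarith [one_le_Phi hs m]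

/-- `Φ(m) = 1 + s ∑_{k ≤ m} U(k) R(m-k)` -/
lemma Phi_eq (s : ℝ) (m : ℕ) : Phi s m = 1 + s * ∑ k ∈ range (m + 1), U s k * Rn (m - k) := by
  induction m with
  | zero => simp [Phi_zero, Rn_zero]
  | succ m ih =>
    rw [Phi_succ, ih, U_succ, Finset.sum_range_succ (fun k => U s k * Rn (m + 1 - k)) (m + 1)]
    rw [Nat.sub_self, Rn_zero, mul_zero, add_zero, Finset.mul_sum, Finset.mul_sum, add_assoc,
      ← Finset.sum_add_distrib]
    congr 1
    apply Finset.sum_congr rfl
    intro k hk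
    have hk' : k ≤ m := Nat.lt_succ_iff.mp (Finset.mem_range.mp hk)
    have e : m + 1 - k = (m - k) + 1 := by omega
    rw [e, Rn_succ, uh_pos s (by omega)]
    ring

/-- `D_m Φ(m) ≤ 1` -/
lemma Phi_mul_le {s : ℝ} (hs : 0 ≤ s) (m : ℕ) : (1 - s * Rn m) * Phi s m ≤ 1 := by
  have h1 : ∑ k ∈ range (m + 1), U s k * Rn (m - k) ≤ Rn m * Phi s m := by
    rw [Phi, Finset.mul_sum]
    apply Finset.sum_le_sum
    intro k _
    rw [mul_comm]
    exact mul_le_mul_of_nonneg_right (Rn_mono (Nat.sub_le m k)) (U_nonneg hs k)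
  have h2 := Phi_eq s m
  nlinarith [mul_le_mul_of_nonneg_left h1 hs]

lemma Phi_le {s : ℝ} (hs : 0 ≤ s) {m : ℕ} (hD : 0 < 1 - s * Rn m) :
    Phi s m ≤ 1 / (1 - s * Rn m) := by
  rw [le_div_iff₀ hD, mul_comm]
  exact Phi_mul_le hs m

lemma D_anti {s : ℝ} (hs : 0 ≤ s) {m n : ℕ} (h : m ≤ n) : 1 - s * Rn n ≤ 1 - s * Rn m := by
  have := mul_le_mul_of_nonneg_left (Rn_mono h) hs
  linarith

lemma sum_uZ_reflect (n : ℕ) : ∑ k ∈ range n, uZ (n - k) = Rn n := by
  induction n with
  | zero => simp [Rn_zero]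
  | succ n ih =>
    rw [Finset.sum_range_succ', Rn_succ, ← ih]
    congr 1
    apply Finset.sum_congr rfl
    intro k _
    congr 1; omega

/-- pointwise bound for the renewal sequence: `j U(j) ≤ s / (3 D²)` -/
lemma mul_U_le (hK0 : TargetK0) {s : ℝ} (hs : 0 ≤ s) {m : ℕ} (hD : 0 < 1 - s * Rn m) {j : ℕ}
    (hj : j ≤ m) : (j : ℝ) * U s j ≤ s / (3 * (1 - s * Rn m) ^ 2) := by
  set D := 1 - s * Rn m with hDdef
  have hD1 : D ≤ 1 := by
    have := mul_nonneg hs (Rn_nonneg m)
    linarith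
  have hB0 : 0 ≤ s / (3 * D ^ 2) := by positivity
  induction j using Nat.strong_induction_on with
  | _ j ih =>
    cases j with
    | zero => simpa using hB0
    | succ j =>
      rw [U_succ, Finset.mul_sum]
      have key : ∀ k ∈ range (j + 1), ((j + 1 : ℕ) : ℝ) * (uh s (j + 1 - k) * U s k) ≤
          s / 3 * U s k + s * uZ (j + 1 - k) * (s / (3 * D ^ 2)) := by
        intro k hk
        have hk' : k < j + 1 := Finset.mem_range.mp hk
        have e : ((j + 1 : ℕ) : ℝ) = ((j + 1 - k : ℕ) : ℝ) + (k : ℝ) := by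
          rw [← Nat.cast_add]; congr 1; omega
        rw [uh_pos s (by omega), e]
        have h1 : ((j + 1 - k : ℕ) : ℝ) * uZ (j + 1 - k) ≤ 1 / 3 := by
          have h := (hK0.2 (j + 1 - k) (by omega)).2
          have hpos : (0 : ℝ) < ((j + 1 - k : ℕ) : ℝ) := by
            exact_mod_cast (by omega : 0 < j + 1 - k)
          calc ((j + 1 - k : ℕ) : ℝ) * uZ (j + 1 - k)
              ≤ ((j + 1 - k : ℕ) : ℝ) * (1 / (3 * ((j + 1 - k : ℕ) : ℝ))) :=
                mul_le_mul_of_nonneg_left h hpos.le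
            _ = 1 / 3 := by field_simp
        have h2 := ih k hk' (by omega)
        have h3 := U_nonneg hs k
        have h4 := uZ_nonneg (j + 1 - k)
        calc (((j + 1 - k : ℕ) : ℝ) + (k : ℝ)) * (s * uZ (j + 1 - k) * U s k)
            = s * (((j + 1 - k : ℕ) : ℝ) * uZ (j + 1 - k)) * U s k
              + s * uZ (j + 1 - k) * ((k : ℝ) * U s k) := by ring
          _ ≤ s * (1 / 3) * U s k + s * uZ (j + 1 - k) * (s / (3 * D ^ 2)) := by
              gcongr
          _ = _ := by ring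
      refine (Finset.sum_le_sum key).trans ?_
      rw [Finset.sum_add_distrib, ← Finset.mul_sum, ← Finset.sum_mul, ← Finset.mul_sum]
      rw [sum_uZ_reflect]
      have h6 : ∑ k ∈ range (j + 1), U s k ≤ 1 / D := by
        have hDj : D ≤ 1 - s * Rn j := D_anti hs (by omega)
        have hDj0 : 0 < 1 - s * Rn j := lt_of_lt_of_le hD hDj
        calc ∑ k ∈ range (j + 1), U s k = Phi s j := rfl
          _ ≤ 1 / (1 - s * Rn j) := Phi_le hs hDj0
          _ ≤ 1 / D := one_div_le_one_div_of_le hD hDj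
      have h7 : s * Rn (j + 1) ≤ 1 - D := by
        have := D_anti hs hj
        linarith
      calc s / 3 * ∑ k ∈ range (j + 1), U s k + s * Rn (j + 1) * (s / (3 * D ^ 2))
          ≤ s / 3 * (1 / D) + (1 - D) * (s / (3 * D ^ 2)) := by gcongr
        _ = s / (3 * D ^ 2) := by field_simp; ring

/-- renewal equation in convolution form -/
lemma U_conv (s : ℝ) (n : ℕ) :
    U s n = (if n = 0 then 1 else 0) + ∑ p ∈ antidiagonal n, uh s p.1 * U s p.2 := by
  cases n with
  | zero => simp [U_zero, uh_zero]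
  | succ n =>
    rw [U_succ, if_neg (Nat.succ_ne_zero n), zero_add,
      Finset.Nat.sum_antidiagonal_eq_sum_range_succ_mk,
      Finset.sum_range_succ' (fun k => uh s (k, n + 1 - k).1 * U s (k, n + 1 - k).2) (n + 1)]
    simp only [uh_zero, zero_mul, add_zero]
    rw [← Finset.sum_range_reflect]
    apply Finset.sum_congr rfl
    intro k hk
    have hk' : k < n + 1 := Finset.mem_range.mp hk
    have e1 : n + 1 - (n + 1 - 1 - k) = k + 1 := by omega
    have e2 : n + 1 - 1 - k = n + 1 - (k + 1) := by omega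
    rw [e1, e2]

/-- solution of the renewal equation with general right-hand side -/
lemma conv_solution (s : ℝ) (a y : ℕ → ℝ)
    (h : ∀ T, y T = a T + ∑ p ∈ antidiagonal T, uh s p.1 * y p.2) (T : ℕ) :
    y T = ∑ p ∈ antidiagonal T, U s p.1 * a p.2 := by
  have h1 : PowerSeries.mk y = PowerSeries.mk a + PowerSeries.mk (uh s) * PowerSeries.mk y := by
    ext n
    simp only [map_add, PowerSeries.coeff_mk, PowerSeries.coeff_mul]
    exact h n
  have h2 : PowerSeries.mk (U s) = 1 + PowerSeries.mk (uh s) * PowerSeries.mk (U s) := by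
    ext n
    simp only [map_add, PowerSeries.coeff_mk, PowerSeries.coeff_mul, PowerSeries.coeff_one]
    exact U_conv s n
  have h3 : PowerSeries.mk y = PowerSeries.mk (U s) * PowerSeries.mk a := by
    have e1 : (1 - PowerSeries.mk (uh s)) * PowerSeries.mk y = PowerSeries.mk a := by
      rw [sub_mul, one_mul]; exact sub_eq_iff_eq_add.mpr h1
    have e2 : (1 - PowerSeries.mk (uh s)) * PowerSeries.mk (U s) = 1 := by
      rw [sub_mul, one_mul]; exact sub_eq_iff_eq_add.mpr h2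
    calc PowerSeries.mk y = ((1 - PowerSeries.mk (uh s)) * PowerSeries.mk (U s)) *
          PowerSeries.mk y := by rw [e2, one_mul]
      _ = PowerSeries.mk (U s) * ((1 - PowerSeries.mk (uh s)) * PowerSeries.mk y) := by ring
      _ = _ := by rw [e1]
  have h4 := congrArg (PowerSeries.coeff T) h3
  simpa only [PowerSeries.coeff_mk, PowerSeries.coeff_mul] using h4

lemma Rn_sub_eq {m j : ℕ} (hj : j ≤ m) : Rn m - Rn (m - j) = ∑ n ∈ Icc (m - j + 1) m, uZ n := by
  induction j with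
  | zero => simp
  | succ j ih =>
    have ih' := ih (by omega)
    have e : m - j = m - (j + 1) + 1 := by omega
    have h1 : Rn (m - j) = Rn (m - (j + 1)) + uZ (m - j) := by
      rw [e, Rn_succ, ← e]
    have h2 : ∑ n ∈ Icc (m - (j + 1) + 1) m, uZ n = uZ (m - j) + ∑ n ∈ Icc (m - j + 1) m, uZ n := by
      rw [← e]
      rw [← Finset.add_sum_Ioc_eq_sum_Icc (by omega : m - j ≤ m)]
      have : Ioc (m - j) m = Icc (m - j + 1) m := by ext x; simp [Nat.succ_le_iff]
      rw [this]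
    rw [h2, ← ih', h1]; ring

lemma sum_pairs_le (m : ℕ) :
    ∑ j ∈ Icc 1 m, ∑ n ∈ Icc (m - j + 1) m, (1 / (j : ℝ)) * (1 / (n : ℝ)) ≤ 2 := by
  have h1 : ∀ j ∈ Icc 1 m, ∀ n ∈ Icc (m - j + 1) m, (1 / (j : ℝ)) * (1 / (n : ℝ)) ≤
      (1 / ((m : ℝ) + 1)) * (1 / (j : ℝ) + 1 / (n : ℝ)) := by
    intro j hj n hn
    rw [Finset.mem_Icc] at hj hn
    have hj0 : (0 : ℝ) < j := by exact_mod_cast (by omega : 0 < j)
    have hn0 : (0 : ℝ) < n := by exact_mod_cast (by omega : 0 < n)
    have hs : (m : ℝ) + 1 ≤ j + n := by exact_mod_cast (by omega : m + 1 ≤ j + n)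
    have hm0 : (0 : ℝ) < (m : ℝ) + 1 := by positivity
    rw [div_mul_div_comm, div_add_div _ _ hj0.ne' hn0.ne', div_mul_div_comm, div_le_div_iff₀
      (by positivity) (by positivity)]
    nlinarith [mul_pos hj0 hn0]
  calc ∑ j ∈ Icc 1 m, ∑ n ∈ Icc (m - j + 1) m, (1 / (j : ℝ)) * (1 / (n : ℝ))
      ≤ ∑ j ∈ Icc 1 m, ∑ n ∈ Icc (m - j + 1) m,
        (1 / ((m : ℝ) + 1)) * (1 / (j : ℝ) + 1 / (n : ℝ)) :=
        Finset.sum_le_sum (fun j hj => Finset.sum_le_sum (fun n hn => h1 j hj n hn))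
    _ = (1 / ((m : ℝ) + 1)) * (∑ j ∈ Icc 1 m, ∑ n ∈ Icc (m - j + 1) m, 1 / (j : ℝ)
        + ∑ j ∈ Icc 1 m, ∑ n ∈ Icc (m - j + 1) m, 1 / (n : ℝ)) := by
        rw [← Finset.sum_add_distrib, Finset.mul_sum]
        apply Finset.sum_congr rfl
        intro j _
        rw [← Finset.sum_add_distrib, Finset.mul_sum]
    _ = (1 / ((m : ℝ) + 1)) * ((m : ℝ) + m) := by
        have e1 : ∑ j ∈ Icc 1 m, ∑ n ∈ Icc (m - j + 1) m, 1 / (j : ℝ) = m := by
          have : ∀ j ∈ Icc 1 m, ∑ n ∈ Icc (m - j + 1) m, 1 / (j : ℝ) = 1 := by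
            intro j hj
            rw [Finset.mem_Icc] at hj
            have hj0 : (j : ℝ) ≠ 0 := by
              have : j ≠ 0 := by omega
              exact_mod_cast this
            rw [Finset.sum_const, Nat.card_Icc, nsmul_eq_mul]
            have e : m + 1 - (m - j + 1) = j := by omega
            rw [e]; field_simp
          rw [Finset.sum_congr rfl this]; simp
        have e2 : ∑ j ∈ Icc 1 m, ∑ n ∈ Icc (m - j + 1) m, 1 / (n : ℝ) = m := by
          rw [Finset.sum_comm' (t' := Icc 1 m) (s' := fun n => Icc (m - n + 1) m)]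
          · exact e1
          · intro x y
            simp only [Finset.mem_Icc]
            omega
        rw [e1, e2]
    _ ≤ 2 := by
        rw [one_div, inv_mul_le_iff₀ (by positivity)]
        linarith

/-- lower bound `D_m Φ(m) ≥ 1 - (2/9) s²/D_m²` -/
lemma Phi_lower (hK0 : TargetK0) {s : ℝ} (hs : 0 ≤ s) {m : ℕ} (hD : 0 < 1 - s * Rn m) :
    1 - 2 / 9 * (s ^ 2 / (1 - s * Rn m) ^ 2) ≤ (1 - s * Rn m) * Phi s m := by
  have h1 : (1 - s * Rn m) * Phi s m =
      1 - s * ∑ k ∈ range (m + 1), U s k * (Rn m - Rn (m - k)) := by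
    have e : ∑ k ∈ range (m + 1), U s k * (Rn m - Rn (m - k))
        = Phi s m * Rn m - ∑ k ∈ range (m + 1), U s k * Rn (m - k) := by
      rw [Phi, Finset.sum_mul, ← Finset.sum_sub_distrib]
      apply Finset.sum_congr rfl; intro k _; ring
    rw [e]
    have := Phi_eq s m
    linear_combination this
  rw [h1]
  set D := 1 - s * Rn m with hDdef
  have h2 : ∑ k ∈ range (m + 1), U s k * (Rn m - Rn (m - k)) ≤ s / (9 * D ^ 2) * 2 := by
    rw [Finset.sum_range_succ', Nat.sub_zero, sub_self, mul_zero, add_zero]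
    calc ∑ k ∈ range m, U s (k + 1) * (Rn m - Rn (m - (k + 1)))
        = ∑ j ∈ Icc 1 m, U s j * (Rn m - Rn (m - j)) :=
          (sum_Icc_one (fun j => U s j * (Rn m - Rn (m - j))) m).symm
      _ ≤ ∑ j ∈ Icc 1 m, s / (9 * D ^ 2) *
            ∑ n ∈ Icc (m - j + 1) m, (1 / (j : ℝ)) * (1 / (n : ℝ)) := by
          apply Finset.sum_le_sum
          intro j hj
          rw [Finset.mem_Icc] at hj
          have hj0 : (0 : ℝ) < j := by exact_mod_cast (by omega : 0 < j)
          rw [Rn_sub_eq hj.2, Finset.mul_sum, Finset.mul_sum]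
          apply Finset.sum_le_sum
          intro n hn
          rw [Finset.mem_Icc] at hn
          have hn0 : (0 : ℝ) < n := by exact_mod_cast (by omega : 0 < n)
          have a1 : U s j ≤ s / (3 * D ^ 2) * (1 / j) := by
            have := mul_U_le hK0 hs hD hj.2
            rw [mul_one_div, le_div_iff₀ hj0]; linarith
          have a2 := (hK0.2 n (by omega)).2
          calc U s j * uZ n ≤ (s / (3 * D ^ 2) * (1 / j)) * (1 / (3 * (n : ℝ))) :=
                mul_le_mul a1 a2 (uZ_nonneg n) (by positivity)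
            _ = _ := by field_simp; ring
      _ = s / (9 * D ^ 2) * ∑ j ∈ Icc 1 m,
            ∑ n ∈ Icc (m - j + 1) m, (1 / (j : ℝ)) * (1 / (n : ℝ)) := by rw [Finset.mul_sum]
      _ ≤ s / (9 * D ^ 2) * 2 := by
          apply mul_le_mul_of_nonneg_left (sum_pairs_le m)
          positivity
  have h3 := mul_le_mul_of_nonneg_left h2 hs
  have h4 : s * (s / (9 * D ^ 2) * 2) = 2 / 9 * (s ^ 2 / D ^ 2) := by field_simp
  linarith

end Pool.Agent.H95.QC
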