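import Mathlib
import Pool.Agent.H95.QC.Targets
import Pool.Agent.H95.QC.Renewal

/-!
# Quasi-critical polymer: definitions for the second batch of modules
-/

open MeasureTheory ProbabilityTheory Filter Topology
open scoped ENNReal NNReal BigOperators

namespace Pool.Agent.H95.QC

/-- energy up to time `T` -/
noncomputable def En (M T : ℕ) [NeZero M] (F : Tor M → ℝ) : ℝ :=
  ∑ n ∈ Finset.Icc 1 T, sq ((step (st M) 1)^[n] F)

/-- kernel of the energy formula -/
noncomputable def Ken (s : ℝ) (T' m : ℕ) : ℝ :=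
  ∑ p ∈ Finset.HasAntidiagonal.antidiagonal m, U s p.1 * (Rn (T' + p.2) - Rn p.2)

/-- a grid of times with bounded ratios -/
structure Grid (Λ N K : ℕ) (n : ℕ → ℕ) : Prop where
  zero : n 0 = 0
  one : 1 ≤ n 1 ∧ n 1 ≤ Λ
  hK : 2 ≤ K
  last : n K = N
  ratio : ∀ i, 1 ≤ i → i < K → Λ * n i ≤ n (i + 1) ∧ n (i + 1) ≤ 2 * Λ * n i

variable (M : ℕ) [NeZero M]

/-- point-to-point partition functions at time `t` -/
noncomputable def ff (t : ℕ) (w : ℕ → Tor M → ℝ≥0) : Tor M → ℝ := evo (st M) 1 t w (dl 0)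

/-- partition function at time `t` -/
noncomputable def WW (t : ℕ) (w : ℕ → Tor M → ℝ≥0) : ℝ := Z (st M) 1 t w (dl 0)

/-- endpoint distribution at time `t` -/
noncomputable def mu (t : ℕ) (w : ℕ → Tor M → ℝ≥0) : Tor M → ℝ := (WW M t w)⁻¹ • ff M t w

/-- good event up to the grid time `n i` -/
def Good (n : ℕ → ℕ) (θ : ℝ) (i : ℕ) (w : ℕ → Tor M → ℝ≥0) : Prop :=
  ∀ j < i, θ * WW M (n j) w ≤ WW M (n (j + 1)) w

/-- block partition function started from the kernel -/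
noncomputable def Xh (n : ℕ → ℕ) (i : ℕ) (w : ℕ → Tor M → ℝ≥0) : ℝ :=
  Z (st M) 1 (n (i + 1) - n i) (shift (n i) w) (q M (n i))

/-- difference of the block ratio and the block partition function -/
noncomputable def er (n : ℕ → ℕ) (i : ℕ) (w : ℕ → Tor M → ℝ≥0) : ℝ :=
  Z (st M) 1 (n (i + 1) - n i) (shift (n i) w) (mu M (n i) w - q M (n i))

/-- truncated logarithm of the block partition function -/
noncomputable def Yt (n : ℕ → ℕ) (θ : ℝ) (i : ℕ) (w : ℕ → Tor M → ℝ≥0) : ℝ :=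
  if 2 * θ ≤ Xh M n i w then Real.log (Xh M n i w) else 0

/-- lower tail bound for block partition functions, at the level `2 θ` -/
def LowTail (Λ : ℕ) (θ : ℝ) : Prop :=
  ∃ C : ℝ, 0 < C ∧ ∀ (M n T : ℕ) [NeZero M] (ν : Measure ℝ≥0) (s : ℝ),
    Wt ν s → 1 ≤ n → T ≤ 2 * Λ * n → 2 * (n + T) < M → 0 < 1 - s * Rn T →
    env (Tor M) ν {w | Z (st M) 1 T w (q M n) < 2 * θ} ≤
      ENNReal.ofReal ((C * (s / (1 - s * Rn T))) ^ 2)

end Pool.Agent.H95.QC
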