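import Mathlib
import Pool.Agent.H95.QC.Targets
import Pool.Agent.H95.RBP.Prod

/-!
# Basic properties of the evolution
-/

open MeasureTheory ProbabilityTheory Filter Topology
open scoped ENNReal NNReal BigOperators

set_option linter.unusedSectionVars false

namespace Pool.Agent.H95.QC

section Core

variable {G : Type*} [Fintype G] [DecidableEq G] [AddCommGroup G]
variable (st : Fin 4 → G) (a : G → ℝ)

lemma step_add (f g : G → ℝ) : step st a (f + g) = step st a f + step st a g := by
  funext x
  simp only [step, Pi.add_apply, Finset.sum_add_distrib]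
  ring

lemma step_smul (c : ℝ) (f : G → ℝ) : step st a (c • f) = c • step st a f := by
  funext x
  simp only [step, Pi.smul_apply, smul_eq_mul, ← Finset.mul_sum]
  ring

lemma step_zero : step st a 0 = 0 := by
  funext x; simp [step]

lemma step_sub (f g : G → ℝ) : step st a (f - g) = step st a f - step st a g := by
  funext x
  simp only [step, Pi.sub_apply, Finset.sum_sub_distrib]
  ring

/-- `step` as a linear map -/
noncomputable def stepL : (G → ℝ) →ₗ[ℝ] (G → ℝ) where
  toFun := step st a
  map_add' := step_add st a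
  map_smul' := step_smul st a

lemma stepL_apply (f : G → ℝ) : stepL st a f = step st a f := rfl

/-- `evo` as a linear map -/
noncomputable def evoL : ℕ → (ℕ → G → ℝ≥0) → (G → ℝ) →ₗ[ℝ] (G → ℝ)
  | 0, _ => LinearMap.id
  | n + 1, w => (evoL n (shift 1 w)).comp
      ({ toFun := fun f x => (w 0 x : ℝ) * f x
         map_add' := by intro f g; funext x; simp [mul_add]
         map_smul' := by intro c f; funext x; simp; ring } ∘ₗ stepL st a)

lemma evoL_apply (n : ℕ) (w : ℕ → G → ℝ≥0) (f : G → ℝ) : evoL st a n w f = evo st a n w f := by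
  induction n generalizing w f with
  | zero => rfl
  | succ n ih =>
    simp only [evoL, evo, LinearMap.comp_apply]
    rw [ih]
    rfl

lemma evo_add (n : ℕ) (w : ℕ → G → ℝ≥0) (f g : G → ℝ) :
    evo st a n w (f + g) = evo st a n w f + evo st a n w g := by
  simp only [← evoL_apply, map_add]

lemma evo_sub (n : ℕ) (w : ℕ → G → ℝ≥0) (f g : G → ℝ) :
    evo st a n w (f - g) = evo st a n w f - evo st a n w g := by
  simp only [← evoL_apply, map_sub]

lemma evo_smul (n : ℕ) (w : ℕ → G → ℝ≥0) (c : ℝ) (f : G → ℝ) :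
    evo st a n w (c • f) = c • evo st a n w f := by
  simp only [← evoL_apply, map_smul]

lemma eq_sum_dl (f : G → ℝ) : f = ∑ x, f x • dl x := by
  funext y
  simp [dl, Finset.sum_apply, Pi.single_apply]

lemma evo_eq_sum (n : ℕ) (w : ℕ → G → ℝ≥0) (f : G → ℝ) (y : G) :
    evo st a n w f y = ∑ x, f x * evo st a n w (dl x) y := by
  conv_lhs => rw [eq_sum_dl f]
  simp only [← evoL_apply, map_sum, map_smul, Finset.sum_apply, Pi.smul_apply, smul_eq_mul]

lemma Z_eq_sum (n : ℕ) (w : ℕ → G → ℝ≥0) (f : G → ℝ) :
    Z st a n w f = ∑ x, f x * Z st a n w (dl x) := by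
  unfold Z
  simp_rw [evo_eq_sum st a n w f, Finset.mul_sum]
  rw [Finset.sum_comm]

lemma Z_sub (n : ℕ) (w : ℕ → G → ℝ≥0) (f g : G → ℝ) :
    Z st a n w (f - g) = Z st a n w f - Z st a n w g := by
  simp [Z, evo_sub, Finset.sum_sub_distrib]

lemma Z_smul (n : ℕ) (w : ℕ → G → ℝ≥0) (c : ℝ) (f : G → ℝ) :
    Z st a n w (c • f) = c * Z st a n w f := by
  simp [Z, evo_smul, Finset.mul_sum]

/-- splitting the time interval -/
lemma evo_split (m n : ℕ) (w : ℕ → G → ℝ≥0) (f : G → ℝ) :
    evo st a (m + n) w f = evo st a n (shift m w) (evo st a m w f) := by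
  induction m generalizing w f with
  | zero => simp [evo, shift_zero]
  | succ m ih =>
    have e : m + 1 + n = (m + n) + 1 := by ring
    rw [e]
    simp only [evo]
    rw [ih, shift_shift]

lemma step_nonneg (ha : ∀ x, 0 ≤ a x) {f : G → ℝ} (hf : ∀ x, 0 ≤ f x) (x : G) :
    0 ≤ step st a f x := by
  unfold step
  exact mul_nonneg (ha x) (div_nonneg (Finset.sum_nonneg (fun i _ => hf _)) (by norm_num))

lemma evo_nonneg (ha : ∀ x, 0 ≤ a x) (n : ℕ) (w : ℕ → G → ℝ≥0) {f : G → ℝ} (hf : ∀ x, 0 ≤ f x)
    (x : G) : 0 ≤ evo st a n w f x := by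
  induction n generalizing w f with
  | zero => exact hf x
  | succ n ih =>
    simp only [evo]
    exact ih _ (fun y => mul_nonneg (w 0 y).coe_nonneg (step_nonneg st a ha hf y))

lemma Z_nonneg (ha : ∀ x, 0 ≤ a x) (n : ℕ) (w : ℕ → G → ℝ≥0) {f : G → ℝ} (hf : ∀ x, 0 ≤ f x) :
    0 ≤ Z st a n w f := Finset.sum_nonneg (fun x _ => evo_nonneg st a ha n w hf x)

lemma sum_step_one (f : G → ℝ) : ∑ x, step st 1 f x = ∑ x, f x := by
  simp only [step, Pi.one_apply, one_mul, ← Finset.sum_div]
  rw [Finset.sum_comm]
  have : ∀ i : Fin 4, ∑ x, f (x - st i) = ∑ x, f x := fun i =>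
    Fintype.sum_equiv (Equiv.subRight (st i)) _ _ (fun x => rfl)
  simp only [this, Finset.sum_const, Finset.card_univ, Fintype.card_fin, nsmul_eq_mul]
  push_cast
  ring

lemma step_mono (ha : ∀ x, 0 ≤ a x) {f g : G → ℝ} (h : ∀ x, f x ≤ g x) (x : G) :
    step st a f x ≤ step st a g x := by
  unfold step
  exact mul_le_mul_of_nonneg_left (div_le_div_of_nonneg_right
    (Finset.sum_le_sum (fun i _ => h _)) (by norm_num)) (ha x)

lemma evo_depLt (n : ℕ) (f : G → ℝ) : DepLt n (fun w => evo st a n w f) := by
  intro x x' h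
  induction n generalizing x x' f with
  | zero => rfl
  | succ n ih =>
    simp only [evo]
    rw [h 0 (by omega)]
    exact ih _ _ _ (fun i hi => by simp only [shift_apply]; exact h (i + 1) (by omega))

lemma measurable_step : Measurable (step st a) := by
  unfold step
  fun_prop

lemma measurable_evo (n : ℕ) :
    Measurable (fun p : (ℕ → G → ℝ≥0) × (G → ℝ) => evo st a n p.1 p.2) := by
  induction n with
  | zero => exact measurable_snd
  | succ n ih =>
    have h1 : Measurable (fun p : (ℕ → G → ℝ≥0) × (G → ℝ) =>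
        ((shift 1 p.1, fun x => (p.1 0 x : ℝ) * step st a p.2 x) :
          (ℕ → G → ℝ≥0) × (G → ℝ))) := by
      refine ((measurable_shift 1).comp measurable_fst).prodMk ?_
      refine measurable_pi_lambda _ (fun x => ?_)
      refine Measurable.mul ?_ ?_
      · exact measurable_coe_nnreal_real.comp ((measurable_pi_apply x).comp
          ((measurable_pi_apply 0).comp measurable_fst))
      · exact (measurable_pi_apply x).comp ((measurable_step st a).comp measurable_snd)
    exact ih.comp h1

lemma measurable_evo_left (n : ℕ) (f : G → ℝ) :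
    Measurable (fun w : ℕ → G → ℝ≥0 => evo st a n w f) :=
  (measurable_evo st a n).comp (measurable_id.prodMk measurable_const)

lemma measurable_Z (n : ℕ) :
    Measurable (fun p : (ℕ → G → ℝ≥0) × (G → ℝ) => Z st a n p.1 p.2) := by
  unfold Z
  exact Finset.measurable_sum _ (fun x _ => (measurable_pi_apply x).comp (measurable_evo st a n))

lemma measurable_Z_left (n : ℕ) (f : G → ℝ) :
    Measurable (fun w : ℕ → G → ℝ≥0 => Z st a n w f) :=
  (measurable_Z st a n).comp (measurable_id.prodMk measurable_const)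

end Core

end Pool.Agent.H95.QC
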