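import Mathlib
import Pool.Agent.H95.QC.Evo

/-!
# Second moments of quadratic functionals of the evolution (module S1)
-/

open MeasureTheory ProbabilityTheory Filter Topology
open scoped ENNReal NNReal BigOperators

set_option linter.unusedSectionVars false

namespace Pool.Agent.H95.QC

section pi

variable {G : Type*} [Fintype G] [DecidableEq G]

lemma Wt.memLp {ν : Measure ℝ≥0} {s : ℝ} (h : Wt ν s) : MemLp (fun y : ℝ≥0 => (y : ℝ)) 2 ν := by
  have := h.prob
  rw [memLp_two_iff_integrable_sq measurable_coe_nnreal_real.aestronglyMeasurable]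
  exact h.int2

lemma Wt.variance {ν : Measure ℝ≥0} {s : ℝ} (h : Wt ν s) :
    variance (fun y : ℝ≥0 => (y : ℝ)) ν = s := by
  have := h.prob
  rw [variance_eq_integral measurable_coe_nnreal_real.aemeasurable, h.mean, h.var]

/-- the basic finite-dimensional second moment -/
lemma pi_quad {ν : Measure ℝ≥0} {s : ℝ} (h : Wt ν s) (b : G → ℝ) :
    Integrable (fun y : G → ℝ≥0 => (∑ x, (y x : ℝ) * b x) ^ 2) (Measure.pi (fun _ : G => ν)) ∧
    ∫ y : G → ℝ≥0, (∑ x, (y x : ℝ) * b x) ^ 2 ∂(Measure.pi (fun _ : G => ν))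
      = (∑ x, b x) ^ 2 + s * ∑ x, b x ^ 2 := by
  have := h.prob
  have hmp : ∀ x : G, MeasurePreserving (fun y : G → ℝ≥0 => y x) (Measure.pi (fun _ : G => ν)) ν :=
    fun x => measurePreserving_eval (fun _ : G => ν) x
  have hL : ∀ x : G, MemLp (fun y : G → ℝ≥0 => (y x : ℝ) * b x) 2 (Measure.pi (fun _ : G => ν)) := by
    intro x
    have h1 : MemLp (fun y : G → ℝ≥0 => ((y x : ℝ))) 2 (Measure.pi (fun _ : G => ν)) :=
      h.memLp.comp_measurePreserving (hmp x)
    have := h1.const_mul (b x)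
    simpa [mul_comm] using this
  have hS : MemLp (fun y : G → ℝ≥0 => ∑ x, (y x : ℝ) * b x) 2 (Measure.pi (fun _ : G => ν)) :=
    memLp_finsetSum _ (fun x _ => hL x)
  refine ⟨hS.integrable_sq, ?_⟩
  have hind : iIndepFun (fun (x : G) (y : G → ℝ≥0) => (y x : ℝ) * b x)
      (Measure.pi (fun _ : G => ν)) :=
    iIndepFun_pi (X := fun (x : G) (z : ℝ≥0) => (z : ℝ) * b x)
      (fun x => (by fun_prop : Measurable (fun z : ℝ≥0 => (z : ℝ) * b x)).aemeasurable)
  have hvar : variance (fun y : G → ℝ≥0 => ∑ x, (y x : ℝ) * b x) (Measure.pi (fun _ : G => ν))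
      = s * ∑ x, b x ^ 2 := by
    have h1 := IndepFun.variance_sum (μ := Measure.pi (fun _ : G => ν)) (s := Finset.univ)
      (X := fun (x : G) (y : G → ℝ≥0) => (y x : ℝ) * b x) (fun x _ => hL x)
      (fun x _ y _ hxy => hind.indepFun hxy)
    have e : (∑ x, fun y : G → ℝ≥0 => (y x : ℝ) * b x) = fun y : G → ℝ≥0 => ∑ x, (y x : ℝ) * b x := by
      funext y; simp
    rw [e] at h1
    rw [h1, Finset.mul_sum]
    apply Finset.sum_congr rfl
    intro x _
    have h2 : variance (fun y : G → ℝ≥0 => (y x : ℝ) * b x) (Measure.pi (fun _ : G => ν)) =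
        b x ^ 2 * variance (fun y : G → ℝ≥0 => (y x : ℝ)) (Measure.pi (fun _ : G => ν)) := by
      rw [← variance_const_mul]
      congr 1
      funext y; ring
    have h3 : variance (fun y : G → ℝ≥0 => (y x : ℝ)) (Measure.pi (fun _ : G => ν)) = s := by
      rw [← h.variance]
      have := variance_map (μ := Measure.pi (fun _ : G => ν)) (Y := fun y : G → ℝ≥0 => y x)
        (X := fun z : ℝ≥0 => (z : ℝ)) (by
          rw [(hmp x).map_eq]; exact measurable_coe_nnreal_real.aemeasurable)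
          (hmp x).measurable.aemeasurable
      rw [(hmp x).map_eq] at this
      rw [this]
      rfl
    rw [h2, h3]; ring
  have hmean : ∫ y : G → ℝ≥0, ∑ x, (y x : ℝ) * b x ∂(Measure.pi (fun _ : G => ν)) = ∑ x, b x := by
    rw [integral_finsetSum _ (fun x _ => (hL x).integrable (by norm_num))]
    apply Finset.sum_congr rfl
    intro x _
    rw [integral_mul_const]
    have h4 : ∫ y : G → ℝ≥0, (y x : ℝ) ∂(Measure.pi (fun _ : G => ν)) = 1 := by
      rw [← h.mean]
      have := integral_map (μ := Measure.pi (fun _ : G => ν)) (φ := fun y : G → ℝ≥0 => y x)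
        (hmp x).measurable.aemeasurable (f := fun z : ℝ≥0 => (z : ℝ))
        (measurable_coe_nnreal_real.aestronglyMeasurable)
      rw [(hmp x).map_eq] at this
      exact this.symm
    rw [h4, one_mul]
  have := variance_eq_sub hS
  rw [hvar] at this
  simp only [Pi.pow_apply] at this
  rw [hmean] at this
  linarith

end pi

section S1

variable {G : Type} [Fintype G] [DecidableEq G] [AddCommGroup G]
variable (st : Fin 4 → G) (a : G → ℝ)

instance {ν : Measure ℝ≥0} [IsProbabilityMeasure ν] : IsProbabilityMeasure (env G ν) := by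
  unfold env; infer_instance

lemma measurable_SOS {Q : (G → ℝ) → ℝ} (hQ : IsSOS Q) : Measurable Q := by
  obtain ⟨k, L, hL⟩ := hQ
  have : Q = fun F => ∑ i, (∑ x, L i x * F x) ^ 2 := funext hL
  rw [this]; fun_prop

lemma SOS_nonneg {Q : (G → ℝ) → ℝ} (hQ : IsSOS Q) (F : G → ℝ) : 0 ≤ Q F := by
  obtain ⟨k, L, hL⟩ := hQ
  rw [hL]; exact Finset.sum_nonneg (fun i _ => sq_nonneg _)

/-- peel the first layer -/
lemma lintegral_peel {ν : Measure ℝ≥0} [IsProbabilityMeasure ν]
    {H : (G → ℝ≥0) → (ℕ → G → ℝ≥0) → ℝ≥0∞} (hH : Measurable (Function.uncurry H)) :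
    ∫⁻ w, H (w 0) (shift 1 w) ∂(env G ν)
      = ∫⁻ w, ∫⁻ y, H y w ∂(Measure.pi (fun _ : G => ν)) ∂(env G ν) := by
  unfold env
  rw [lintegral_cons _ hH]
  exact lintegral_lintegral_swap hH.aemeasurable

/-- expectation of a sum of squares over one layer -/
lemma lintegral_layer {ν : Measure ℝ≥0} {s : ℝ} (h : Wt ν s) {Q : (G → ℝ) → ℝ} (hQ : IsSOS Q)
    (T : ℕ) (w : ℕ → G → ℝ≥0) (g : G → ℝ) :
    ∫⁻ y : G → ℝ≥0, ENNReal.ofReal (Q (evo st a T w (fun x => (y x : ℝ) * g x)))
      ∂(Measure.pi (fun _ : G => ν))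
      = ENNReal.ofReal (Q (evo st a T w g)) + ENNReal.ofReal s *
        ∑ x, ENNReal.ofReal (g x ^ 2) * ENNReal.ofReal (Q (evo st a T w (dl x))) := by
  obtain ⟨k, L, hL⟩ := hQ
  have hprob := h.prob
  -- linear functional
  set ℓ : Fin k → G → ℝ := fun i x => ∑ z, L i z * evo st a T w (dl x) z with hℓ
  have hlin : ∀ (i : Fin k) (F : G → ℝ), ∑ z, L i z * evo st a T w F z = ∑ x, F x * ℓ i x := by
    intro i F
    simp_rw [evo_eq_sum st a T w F, hℓ, Finset.mul_sum]
    rw [Finset.sum_comm]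
    apply Finset.sum_congr rfl; intro x _
    apply Finset.sum_congr rfl; intro z _
    ring
  have hQ' : ∀ F : G → ℝ, Q (evo st a T w F) = ∑ i, (∑ x, F x * ℓ i x) ^ 2 := by
    intro F; rw [hL]; simp_rw [hlin]
  have hint : ∀ i : Fin k, Integrable (fun y : G → ℝ≥0 => (∑ x, (y x : ℝ) * (g x * ℓ i x)) ^ 2)
      (Measure.pi (fun _ : G => ν)) := fun i => (pi_quad h _).1
  have h1 : ∫ y : G → ℝ≥0, Q (evo st a T w (fun x => (y x : ℝ) * g x))
      ∂(Measure.pi (fun _ : G => ν)) = ∑ i, ((∑ x, g x * ℓ i x) ^ 2 + s * ∑ x, (g x * ℓ i x) ^ 2) := by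
    simp_rw [hQ', mul_assoc]
    rw [integral_finsetSum _ (fun i _ => hint i)]
    apply Finset.sum_congr rfl; intro i _
    exact (pi_quad h _).2
  have h1i : Integrable (fun y : G → ℝ≥0 => Q (evo st a T w (fun x => (y x : ℝ) * g x)))
      (Measure.pi (fun _ : G => ν)) := by
    simp_rw [hQ', mul_assoc]
    exact integrable_finsetSum _ (fun i _ => hint i)
  rw [← ofReal_integral_eq_lintegral_ofReal h1i (ae_of_all _ (fun y => SOS_nonneg ⟨k, L, hL⟩ _)), h1]
  have h2 : ∀ x, ENNReal.ofReal (g x ^ 2) * ENNReal.ofReal (Q (evo st a T w (dl x))) =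
      ENNReal.ofReal (g x ^ 2 * Q (evo st a T w (dl x))) := fun x =>
    (ENNReal.ofReal_mul (sq_nonneg _)).symm
  simp_rw [h2]
  rw [← ENNReal.ofReal_sum_of_nonneg (fun x _ => mul_nonneg (sq_nonneg _) (SOS_nonneg ⟨k, L, hL⟩ _)),
    ← ENNReal.ofReal_mul h.nonneg, ← ENNReal.ofReal_add (SOS_nonneg ⟨k, L, hL⟩ _)
      (mul_nonneg h.nonneg (Finset.sum_nonneg (fun x _ => mul_nonneg (sq_nonneg _)
        (SOS_nonneg ⟨k, L, hL⟩ _))))]
  congr 1
  rw [Finset.sum_add_distrib, hQ' g]
  congr 1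
  rw [← Finset.mul_sum]
  congr 1
  rw [Finset.sum_comm]
  apply Finset.sum_congr rfl; intro x _
  rw [hQ' (dl x), Finset.mul_sum]
  apply Finset.sum_congr rfl; intro i _
  have : ∑ z, dl x z * ℓ i z = ℓ i x := by
    simp [dl, Pi.single_apply]
  rw [this]; ring

lemma qv_nonneg {s : ℝ} (hs : 0 ≤ s) {Q : (G → ℝ) → ℝ} (hQ : ∀ F, 0 ≤ Q F) (T : ℕ) (F : G → ℝ) :
    0 ≤ qv st a s Q T F := by
  induction T generalizing F with
  | zero => exact hQ F
  | succ T ih =>
    simp only [qv]
    exact add_nonneg (ih _) (mul_nonneg hs (Finset.sum_nonneg (fun x _ =>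
      mul_nonneg (sq_nonneg _) (ih _))))

lemma lintegral_SOS {ν : Measure ℝ≥0} {s : ℝ} (h : Wt ν s) {Q : (G → ℝ) → ℝ} (hQ : IsSOS Q)
    (T : ℕ) (F : G → ℝ) :
    ∫⁻ w, ENNReal.ofReal (Q (evo st a T w F)) ∂(env G ν) = ENNReal.ofReal (qv st a s Q T F) := by
  have hprob := h.prob
  induction T generalizing F with
  | zero => simp [evo, qv]
  | succ T ih =>
    have hmeas : Measurable (Function.uncurry (fun (y : G → ℝ≥0) (w : ℕ → G → ℝ≥0) =>
        ENNReal.ofReal (Q (evo st a T w (fun x => (y x : ℝ) * step st a F x))))) := by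
      apply ENNReal.measurable_ofReal.comp
      apply (measurable_SOS hQ).comp
      have h1 : Measurable (fun p : (G → ℝ≥0) × (ℕ → G → ℝ≥0) =>
          ((p.2, fun x => (p.1 x : ℝ) * step st a F x) : (ℕ → G → ℝ≥0) × (G → ℝ))) := by
        refine measurable_snd.prodMk ?_
        refine measurable_pi_lambda _ (fun x => ?_)
        exact (measurable_coe_nnreal_real.comp
          ((measurable_pi_apply x).comp measurable_fst)).mul measurable_const
      exact (measurable_evo st a T).comp h1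
    have e1 := lintegral_peel (ν := ν) hmeas
    simp only [evo]
    refine e1.trans ?_
    simp_rw [lintegral_layer st a h hQ T]
    have hm : ∀ F : G → ℝ, Measurable (fun w => ENNReal.ofReal (Q (evo st a T w F))) := fun F =>
      ENNReal.measurable_ofReal.comp ((measurable_SOS hQ).comp (measurable_evo_left st a T F))
    rw [lintegral_add_left (hm _), lintegral_const_mul _
      (Finset.measurable_sum _ (fun x _ => (hm _).const_mul _)),
      lintegral_finsetSum _ (fun x _ => (hm _).const_mul _)]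
    simp_rw [lintegral_const_mul _ (hm _), ih]
    have hq := fun (F : G → ℝ) => qv_nonneg st a h.nonneg (SOS_nonneg hQ) T F
    simp_rw [← ENNReal.ofReal_mul (sq_nonneg _)]
    rw [← ENNReal.ofReal_sum_of_nonneg (fun x _ => mul_nonneg (sq_nonneg _) (hq _)),
      ← ENNReal.ofReal_mul h.nonneg, ← ENNReal.ofReal_add (hq _)
      (mul_nonneg h.nonneg (Finset.sum_nonneg (fun x _ => mul_nonneg (sq_nonneg _) (hq _))))]
    rfl

theorem targetS1 : TargetS1 := by
  intro G _ _ _ st a ν s h Q hQ T F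
  have hprob := h.prob
  have h1 := lintegral_SOS st a h hQ T F
  have hm : Measurable (fun w => Q (evo st a T w F)) :=
    (measurable_SOS hQ).comp (measurable_evo_left st a T F)
  have h0 : ∀ w, 0 ≤ Q (evo st a T w F) := fun w => SOS_nonneg hQ _
  have hi : Integrable (fun w => Q (evo st a T w F)) (env G ν) := by
    refine ⟨hm.aestronglyMeasurable, ?_⟩
    rw [hasFiniteIntegral_iff_ofReal (ae_of_all _ h0), h1]
    exact ENNReal.ofReal_lt_top
  refine ⟨hi, ?_⟩
  rw [integral_eq_lintegral_of_nonneg_ae (ae_of_all _ h0) hm.aestronglyMeasurable, h1,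
    ENNReal.toReal_ofReal (qv_nonneg st a h.nonneg (SOS_nonneg hQ) T F)]

end S1

end Pool.Agent.H95.QC
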