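import Mathlib
import Pool.Agent.H95.QC.Defs2

/-!
# Quasi-critical 2d directed polymer: second batch of module statements
-/

open MeasureTheory ProbabilityTheory Filter Topology
open scoped ENNReal NNReal BigOperators

namespace Pool.Agent.H95.QC

universe u

/-! ## Module E : energies -/

/-- E1: second moment of the mass (from `qv`; uses K1 for `sq ((step)^[j] (dl x)) = uZ j`, and
`conv_solution` for `qv … (dl x) = Phi s T`). -/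
def TargetE1 : Prop :=
  ∀ (M T : ℕ) [NeZero M] (s : ℝ) (F : Tor M → ℝ), 2 * T < M →
    qv (st M) 1 s (fun F => (∑ x, F x) ^ 2) T F = (∑ x, F x) ^ 2 +
      s * ∑ j ∈ Finset.Icc 1 T, Phi s (T - j) * sq ((step (st M) 1)^[j] F)

/-- E2: second moment of the energy. -/
def TargetE2 : Prop :=
  ∀ (M T T' : ℕ) [NeZero M] (s : ℝ) (F : Tor M → ℝ), 2 * (T + T') < M →
    qv (st M) 1 s (En M T') T F = En M T' ((step (st M) 1)^[T] F) +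
      s * ∑ j ∈ Finset.Icc 1 T, Ken s T' (T - j) * sq ((step (st M) 1)^[j] F)

/-- E3: bound of the convolution in E2. `D = 1 - s Rn T`. For `j ≤ T/2`, `m = T - j ≥ T/2`:
`Ken m ≤ C_r / D` (split `p.1 ≤ m/2`: `Rn (T'+k) - Rn k ≤ T'/(3(k+1))`; `p.1 > m/2`:
`U l ≤ s/(3 l D²)` and `∑_{k ≤ m} (Rn (T'+k) - Rn k) ≤ (T'+m)/3`). For `j > T/2`:
`v j ≤ 2/(3T)` and `∑_{m ≤ T/2} Ken m ≤ (1/D) (T' + T/2 + 1)/3`. -/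
def TargetE3 : Prop :=
  ∀ r : ℕ, ∃ C : ℝ, 0 < C ∧ ∀ (s : ℝ) (T T' : ℕ) (v : ℕ → ℝ), 0 < s → s ≤ 1 - s * Rn T → 1 ≤ T →
    T' ≤ r * T → (∀ j, 1 ≤ j → j ≤ T → 0 ≤ v j ∧ v j ≤ uZ j) →
    s * ∑ j ∈ Finset.Icc 1 T, Ken s T' (T - j) * v j ≤
      C * (s / (1 - s * Rn T)) * (1 + ∑ j ∈ Finset.Icc 1 T, v j)

/-- E4: `‖P^j F‖₂² ≤ u(j) ‖F‖₁²` -/
def TargetE4 : Prop :=
  ∀ (M j : ℕ) [NeZero M] (F : Tor M → ℝ), 2 * j < M →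
    sq ((step (st M) 1)^[j] F) ≤ uZ j * (∑ x, |F x|) ^ 2

/-- E5: mean of the evolution, and the centred second moment. -/
def TargetE5 : Prop :=
  ∀ (G : Type) [Fintype G] [DecidableEq G] [AddCommGroup G] (st : Fin 4 → G) (a : G → ℝ)
    (ν : Measure ℝ≥0) (s : ℝ), Wt ν s → ∀ (T : ℕ) (F : G → ℝ),
    (∀ x, Integrable (fun w => evo st a T w F x) (env G ν) ∧
      ∫ w, evo st a T w F x ∂(env G ν) = (step st a)^[T] F x) ∧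
    ∀ Q : (G → ℝ) → ℝ, IsSOS Q →
      Integrable (fun w => Q (evo st a T w F - (step st a)^[T] F)) (env G ν) ∧
      ∫ w, Q (evo st a T w F - (step st a)^[T] F) ∂(env G ν)
        = qv st a s Q T F - Q ((step st a)^[T] F)

/-! ## Module P : one block, deterministic starting vector -/

/-- P1: energy of the evolved vector (from S1, E2, E3, E4, E5). -/
def TargetP1 : Prop :=
  ∀ r : ℕ, ∃ C : ℝ, 0 < C ∧ ∀ (M T T' : ℕ) [NeZero M] (ν : Measure ℝ≥0) (s : ℝ) (μ : Tor M → ℝ),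
    Wt ν s → 0 < s → s ≤ 1 - s * Rn T → 1 ≤ T → T' ≤ r * T → 2 * (T + T') < M →
    (∀ x, 0 ≤ μ x) → ∑ x, μ x = 1 →
    ∫⁻ w, ENNReal.ofReal (En M T' (evo (st M) 1 T w μ - (step (st M) 1)^[T] μ)) ∂(env (Tor M) ν)
      ≤ ENNReal.ofReal (C * (s / (1 - s * Rn T)) * (1 + En M T μ)) ∧
    ∫⁻ w, ENNReal.ofReal (En M T' (evo (st M) 1 T w μ)) ∂(env (Tor M) ν)
      ≤ ENNReal.ofReal (C * (1 + (s / (1 - s * Rn T)) * En M T μ))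

/-- P2: variance of the mass (any signed start; from S1, E1, E5, `Phi_le`). -/
def TargetP2 : Prop :=
  ∀ (M T : ℕ) [NeZero M] (ν : Measure ℝ≥0) (s : ℝ) (F : Tor M → ℝ),
    Wt ν s → 0 < 1 - s * Rn T → 2 * T < M →
    ∫⁻ w, ENNReal.ofReal ((Z (st M) 1 T w F - ∑ x, F x) ^ 2) ∂(env (Tor M) ν)
      ≤ ENNReal.ofReal ((s / (1 - s * Rn T)) * En M T F)

/-- P3: fourth moment weight of the evolved vector (from E5 and K3). -/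
def TargetP3 : Prop :=
  ∀ (M T : ℕ) [NeZero M] (ν : Measure ℝ≥0) (s : ℝ) (μ : Tor M → ℝ),
    Wt ν s → (∀ x, 0 ≤ μ x) → ∑ x, μ x = 1 →
    ∫⁻ w, ENNReal.ofReal (∑ x, evo (st M) 1 T w μ x * nrm4 x) ∂(env (Tor M) ν)
      ≤ ENNReal.ofReal (2 * ∑ x, μ x * nrm4 x + 24 * (T : ℝ) ^ 2)

/-! ## Module D : the chain along the grid

Notation: `b = (1 - s Rn N)/s`. All constants depend on `Λ, θ` only. The conditional expectations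
are handled by the splitting lemma `lintegral_split` of `Chain.lean`. -/

/-- D2: energies on the good events. Recursion: `A_{i+1} 1_{Good (i+1)} ≤ θ⁻² En(evo μ_i)`, P1(b),
`T_{i+1} ≤ r T_i`, start `A_1` from `μ_0 = dl 0` (block `0` has length `n 1 ≤ Λ`,
`En M (n 1) (dl 0) = Rn (n 1)`). -/
def TargetD2 : Prop :=
  ∀ (Λ : ℕ) (θ : ℝ), 2 ≤ Λ → 0 < θ → θ < 1 → ∃ C B : ℝ, 0 < C ∧ 1 ≤ B ∧
    ∀ (M N K : ℕ) [NeZero M] (n : ℕ → ℕ) (ν : Measure ℝ≥0) (s : ℝ), Grid Λ N K n → Wt ν s →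
    0 < s → B ≤ (1 - s * Rn N) / s → 8 * N < M → ∀ i < K,
    ∫⁻ w in {w | Good M n θ i w}, ENNReal.ofReal (En M (n (i + 1) - n i) (mu M (n i) w))
      ∂(env (Tor M) ν) ≤ ENNReal.ofReal C

/-- D3: fourth moments on the good events (`8 ≤ θ Λ²` gives the contraction). -/
def TargetD3 : Prop :=
  ∀ (Λ : ℕ) (θ : ℝ), 2 ≤ Λ → 0 < θ → θ < 1 → 8 ≤ θ * (Λ : ℝ) ^ 2 → ∃ C : ℝ, 0 < C ∧
    ∀ (M N K : ℕ) [NeZero M] (n : ℕ → ℕ) (ν : Measure ℝ≥0) (s : ℝ), Grid Λ N K n → Wt ν s →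
    ∀ i, 1 ≤ i → i < K →
    ∫⁻ w in {w | Good M n θ i w}, ENNReal.ofReal (∑ x, mu M (n i) w x * nrm4 x)
      ∂(env (Tor M) ν) ≤ ENNReal.ofReal (C * (n i : ℝ) ^ 2)

/-- D4: the look-back estimate: `μ_i` is close to the kernel in energy. Look back `r = ⌊√b_i⌋`
blocks (`i₀ = i - r`, or `i₀ = 0` if `i ≤ r`), `t = n i`, `t₀ = n i₀`, `W' = W_t/W_{t₀}`:
`W' (μ_i - q_t) = (evo μ_{i₀} - P^{t-t₀} μ_{i₀}) + P^{t-t₀}(μ_{i₀} - q_{t₀}) + (1 - W') q_t`;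
P1(a), K2 (+ D3), P2. On `{W' < θ/2} ∩ Good i` one has `W_{n (i-1)} < W_{t₀}/2`, an event of
probability `≤ C r / b`, on which the energy is bounded in conditional mean given `μ_{i-1}`. -/
def TargetD4 : Prop :=
  ∀ (Λ : ℕ) (θ : ℝ), 2 ≤ Λ → 0 < θ → θ < 1 → 8 ≤ θ * (Λ : ℝ) ^ 2 → ∃ C B : ℝ, 0 < C ∧ 1 ≤ B ∧
    ∀ (M N K : ℕ) [NeZero M] (n : ℕ → ℕ) (ν : Measure ℝ≥0) (s : ℝ), Grid Λ N K n → Wt ν s →
    0 < s → B ≤ (1 - s * Rn N) / s → Even M → 8 * N < M → ∀ i < K,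
    ∫⁻ w in {w | Good M n θ i w}, ENNReal.ofReal (En M (n (i + 1) - n i)
      (mu M (n i) w - q M (n i))) ∂(env (Tor M) ν) ≤
      ENNReal.ofReal (C / √((1 - s * Rn (n (i + 1))) / s))

/-- D5: decoupling of the logarithm of the partition function. -/
def TargetD5 : Prop :=
  ∀ (Λ : ℕ) (θ : ℝ), 2 ≤ Λ → 0 < θ → 2 * θ < 1 → 8 ≤ θ * (Λ : ℝ) ^ 2 → LowTail Λ θ →
    ∀ δ : ℝ, 0 < δ → ∃ B : ℝ, 1 ≤ B ∧
    ∀ (M N K : ℕ) [NeZero M] (n : ℕ → ℕ) (ν : Measure ℝ≥0) (s : ℝ), Grid Λ N K n → Wt ν s →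
    0 < s → B ≤ (1 - s * Rn N) / s → Even M → 8 * N < M →
    env (Tor M) ν {w | δ < |Real.log (WW M N w) - ∑ i ∈ Finset.range K, Yt M n θ i w|}
      ≤ ENNReal.ofReal δ

/-! ## Module G : the grid -/

/-- G1: existence of a grid: `n i = N / Λ^(K-i)`, `K = Nat.log Λ N + 1`. -/
def TargetG1 : Prop :=
  ∀ Λ N : ℕ, 2 ≤ Λ → Λ ≤ N → ∃ (K : ℕ) (n : ℕ → ℕ), Grid Λ N K n

/-- G2: increments of the overlap. -/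
def TargetG2 : Prop :=
  ∀ (Λ N K : ℕ) (n : ℕ → ℕ), 2 ≤ Λ → Grid Λ N K n → Rn (n 1) ≤ Λ ∧
    ∀ i, 1 ≤ i → i < K → 1 / 8 ≤ Rn (n (i + 1)) - Rn (n i) ∧ Rn (n (i + 1)) - Rn (n i) ≤ Λ

/-- G3: sum of the powers `b_i^{-5/4}`, `b_i = 1/s - Rn (n (i+1)) ≥ b_N + (K-1-i)/8`. -/
def TargetG3 : Prop :=
  ∀ Λ : ℕ, 2 ≤ Λ → ∃ C : ℝ, 0 < C ∧ ∀ (N K : ℕ) (n : ℕ → ℕ) (s : ℝ), Grid Λ N K n → 0 < s →
    1 ≤ (1 - s * Rn N) / s →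
    ∑ i ∈ Finset.range K, ((1 - s * Rn (n (i + 1))) / s) ^ (-(5 / 4) : ℝ) ≤
      C * ((1 - s * Rn N) / s) ^ (-(1 / 4) : ℝ)

/-- G4: `∑ 1/b_i ≤ C (1 + log (κ/b_N))`, `κ = 1/s`, `κ/b_N = 1/(1 - s Rn N)`. -/
def TargetG4 : Prop :=
  ∀ Λ : ℕ, 2 ≤ Λ → ∃ C : ℝ, 0 < C ∧ ∀ (N K : ℕ) (n : ℕ → ℕ) (s : ℝ), Grid Λ N K n → 0 < s →
    1 ≤ (1 - s * Rn N) / s →
    ∑ i ∈ Finset.range K, s / (1 - s * Rn (n (i + 1))) ≤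
      C * (1 + Real.log (1 / (1 - s * Rn N)))

/-- G5: the blocks with `κ^{9/10} ≤ b_i` and `b_{i-1} ≤ 3κ/4` carry a positive fraction. -/
def TargetG5 : Prop :=
  ∀ Λ : ℕ, 2 ≤ Λ → ∃ c C : ℝ, 0 < c ∧ 0 < C ∧ ∀ (N K : ℕ) (n : ℕ → ℕ) (s : ℝ),
    Grid Λ N K n → 0 < s → C ≤ 1 / s → 1 ≤ (1 - s * Rn N) / s →
    c * Real.log (1 / (1 - s * Rn N)) - C ≤
      ∑ i ∈ (Finset.range K).filter (fun i => 1 ≤ i ∧
        (1 / s) ^ (9 / 10 : ℝ) ≤ (1 - s * Rn (n (i + 1))) / s ∧ 1 / 4 ≤ s * Rn (n i)),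
        s / (1 - s * Rn (n (i + 1)))

/-! ## Module ND : nondegeneracy of one block -/

/-- windows: `X_a`, `a < J`, of length `ℓ` -/
noncomputable def win (M n ℓ a : ℕ) [NeZero M] (w : ℕ → Tor M → ℝ≥0) : ℝ :=
  Z (st M) 1 ℓ (shift (a * ℓ) w) (q M (n + a * ℓ)) - 1

/-- ND1: `L²` structure of the window decomposition. `R = Z_T(q_n) - 1 - ∑_a X_a` is a sum of
orthogonal terms `δ_a = Z_{T-(a+1)ℓ}(H_a) - ∑ H_a`, `H_a = evo_ℓ q_{n+aℓ} - q_{n+(a+1)ℓ}` and of the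
leftover `Z_{T-Jℓ}(q_{n+Jℓ}) - 1`. -/
def TargetND1 : Prop :=
  ∀ (M n T J ℓ : ℕ) [NeZero M] (ν : Measure ℝ≥0) (s : ℝ), Wt ν s → 0 < s → 1 ≤ n → 1 ≤ ℓ →
    J * ℓ ≤ T → 0 < 1 - s * Rn (n + T) → 4 * (n + T) < M →
    (∀ a, Measurable (win M n ℓ a) ∧ MemLp (win M n ℓ a) 2 (env (Tor M) ν) ∧
      ∫ w, win M n ℓ a w ∂(env (Tor M) ν) = 0) ∧
    iIndepFun (fun a : Fin J => win M n ℓ a) (env (Tor M) ν) ∧
    (∀ a < J, ∫ w, win M n ℓ a w ^ 2 ∂(env (Tor M) ν) =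
      s * ∑ j ∈ Finset.Icc 1 ℓ, Phi s (ℓ - j) * uZ (n + a * ℓ + j)) ∧
    MemLp (fun w => Z (st M) 1 T w (q M n) - 1 - ∑ a : Fin J, win M n ℓ a w) 2
      (env (Tor M) ν) ∧
    ∫ w, (Z (st M) 1 T w (q M n) - 1 - ∑ a : Fin J, win M n ℓ a w) ∂(env (Tor M) ν) = 0 ∧
    ∫ w, (Z (st M) 1 T w (q M n) - 1 - ∑ a : Fin J, win M n ℓ a w) ^ 2 ∂(env (Tor M) ν) ≤
      J * (s / (1 - s * Rn (n + T))) * (s / (3 * n)) * (1 / (1 - s * Rn (n + T))) *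
        ∑ k ∈ Finset.range ℓ, (Rn (T + k) - Rn k)
      + (s / (1 - s * Rn (n + T))) * ((T - J * ℓ : ℕ) / (3 * n))

/-- ND2: truncated second moments of the windows (from H3 and E1 with `s' = (1 + 3δD/2) s`). -/
def TargetND2 : Prop :=
  ∀ (M n ℓ a : ℕ) [NeZero M] (ν : Measure ℝ≥0) (s C₃ δ : ℝ), Wt ν s → 0 < s → 0 < C₃ →
    Integrable (fun y : ℝ≥0 => |(y : ℝ) - 1| ^ 3) ν → ∫ y, |(y : ℝ) - 1| ^ 3 ∂ν ≤ C₃ * s →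
    0 < δ → δ ≤ 1 → 1 ≤ n → 1 ≤ ℓ → 2 * (n + (a + 1) * ℓ) < M → 0 < 1 - s * Rn ℓ →
    -- smallness of `δ`: with `D = max 4 ((4 C₃²)^{1/3} s^{-1/3})`, `3 δ D / 2 ≤ (1 - s Rn ℓ)/2`
    3 / 2 * δ * max 4 ((4 * C₃ ^ 2 / s) ^ (1 / 3 : ℝ)) ≤ (1 - s * Rn ℓ) / 2 →
    ∀ h : ℝ, 0 < h →
    ∫ w in {w | h < |win M n ℓ a w|}, win M n ℓ a w ^ 2 ∂(env (Tor M) ν) ≤
      h ^ (-δ) * (4 * (s / (1 - s * Rn ℓ)) * (ℓ / (3 * n))) ^ (1 + δ / 2)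

/-- ND: nondegeneracy of one block (from N, ND1, ND2, `Phi_lower`): `b = (1 - s Rn (n+T))/s`,
`J ≈ exp(ε' b)`, `ℓ = T / J`, `δ = s^{1/2}`. -/
def TargetND : Prop :=
  ∀ (Λ : ℕ) (θ : ℝ), 2 ≤ Λ → 0 < θ → 2 * θ < 1 → LowTail Λ θ → ∀ C₃ : ℝ, 0 < C₃ →
    ∃ c k₀ : ℝ, 0 < c ∧ 0 < k₀ ∧ ∀ (M n T : ℕ) [NeZero M] (ν : Measure ℝ≥0) (s : ℝ), Wt ν s →
    0 < s → k₀ ≤ 1 / s → Integrable (fun y : ℝ≥0 => |(y : ℝ) - 1| ^ 3) ν →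
    ∫ y, |(y : ℝ) - 1| ^ 3 ∂ν ≤ C₃ * s → 1 ≤ n → Λ * n ≤ n + T → n + T ≤ 2 * Λ * n →
    4 * (n + T) < M → (1 / s) ^ (9 / 10 : ℝ) ≤ (1 - s * Rn (n + T)) / s → 1 / 4 ≤ s * Rn n →
    c * (s / (1 - s * Rn (n + T))) ≤
      variance (fun w => if 2 * θ ≤ Z (st M) 1 T w (q M n) then
        Real.log (Z (st M) 1 T w (q M n)) else 0) (env (Tor M) ν)

end Pool.Agent.H95.QC
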