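import Mathlib
import Pool.Agent.H95.QC.Targets2
import Pool.Agent.H95.QC.Second

/-!
# The chain along the grid: splitting lemmas, measurability, elementary identities
-/

open MeasureTheory ProbabilityTheory Filter Topology
open scoped ENNReal NNReal BigOperators

set_option linter.unusedSectionVars false

namespace Pool.Agent.H95.QC

section split

variable {G : Type} [Fintype G] [DecidableEq G] [AddCommGroup G]
variable {ν : Measure ℝ≥0} [IsProbabilityMeasure ν]

/-- splitting of the environment at time `t` (Markov property) -/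
lemma lintegral_split {t : ℕ} {H : (ℕ → G → ℝ≥0) → (ℕ → G → ℝ≥0) → ℝ≥0∞}
    (hH : Measurable (Function.uncurry H)) (hdep : ∀ w', DepLt t (fun w => H w w')) :
    ∫⁻ w, H w (shift t w) ∂(env G ν) = ∫⁻ w, ∫⁻ w', H w w' ∂(env G ν) ∂(env G ν) := by
  unfold env
  set m := Measure.pi (fun _ : G => ν)
  have hmp := measurePreserving_splice m t
  have hm1 : Measurable (fun w : ℕ → G → ℝ≥0 => H w (shift t w)) :=
    hH.comp (measurable_id.prodMk (measurable_shift t))
  calc ∫⁻ w, H w (shift t w) ∂(iid m)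
      = ∫⁻ p, H (splice t p) (shift t (splice t p)) ∂((iid m).prod (iid m)) := by
        conv_lhs => rw [← hmp.map_eq]
        rw [lintegral_map hm1 hmp.measurable]
    _ = ∫⁻ p, H p.1 p.2 ∂((iid m).prod (iid m)) := by
        apply lintegral_congr
        intro p
        rw [shift_splice]
        exact (hdep p.2).splice_eq p
    _ = _ := by
        rw [lintegral_prod]
        exact hH.aemeasurable

lemma lintegral_split_le {t : ℕ} {H : (ℕ → G → ℝ≥0) → (ℕ → G → ℝ≥0) → ℝ≥0∞}
    {B : (ℕ → G → ℝ≥0) → ℝ≥0∞}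
    (hH : Measurable (Function.uncurry H)) (hdep : ∀ w', DepLt t (fun w => H w w'))
    (hB : ∀ w, ∫⁻ w', H w w' ∂(env G ν) ≤ B w) :
    ∫⁻ w, H w (shift t w) ∂(env G ν) ≤ ∫⁻ w, B w ∂(env G ν) := by
  rw [lintegral_split hH hdep]
  exact lintegral_mono hB

/-- splitting on an event of the past -/
lemma setLIntegral_split_le {t : ℕ} {A : Set (ℕ → G → ℝ≥0)} (hA : MeasurableSet A)
    (hAdep : DepLt t (fun w => w ∈ A)) {H : (ℕ → G → ℝ≥0) → (ℕ → G → ℝ≥0) → ℝ≥0∞}
    {B : (ℕ → G → ℝ≥0) → ℝ≥0∞}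
    (hH : Measurable (Function.uncurry H)) (hdep : ∀ w', DepLt t (fun w => H w w'))
    (hB : ∀ w ∈ A, ∫⁻ w', H w w' ∂(env G ν) ≤ B w) :
    ∫⁻ w in A, H w (shift t w) ∂(env G ν) ≤ ∫⁻ w in A, B w ∂(env G ν) := by
  rw [← lintegral_indicator hA, ← lintegral_indicator hA]
  have h1 : ∀ w, A.indicator (fun w => H w (shift t w)) w =
      (fun w w' => A.indicator (fun w => H w w') w) w (shift t w) := by
    intro w
    by_cases hw : w ∈ A
    · simp [Set.indicator_of_mem hw]
    · simp [Set.indicator_of_notMem hw]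
  simp_rw [h1]
  apply lintegral_split_le (H := fun w w' => A.indicator (fun w => H w w') w)
  · have : Function.uncurry (fun w w' => A.indicator (fun w => H w w') w) =
        (Prod.fst ⁻¹' A).indicator (Function.uncurry H) := by
      funext p
      obtain ⟨w, w'⟩ := p
      by_cases hw : w ∈ A
      · have hw' : ((w, w') : (ℕ → G → ℝ≥0) × (ℕ → G → ℝ≥0)) ∈ Prod.fst ⁻¹' A := hw
        rw [Set.indicator_of_mem hw']
        simp only [Function.uncurry_apply_pair]
        rw [Set.indicator_of_mem hw]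
      · have hw' : ((w, w') : (ℕ → G → ℝ≥0) × (ℕ → G → ℝ≥0)) ∉ Prod.fst ⁻¹' A := hw
        rw [Set.indicator_of_notMem hw']
        simp only [Function.uncurry_apply_pair]
        rw [Set.indicator_of_notMem hw]
    rw [this]
    exact hH.indicator (measurable_fst hA)
  · intro w' x x' hx
    have hm : (x ∈ A) = (x' ∈ A) := hAdep x x' hx
    have hd : H x w' = H x' w' := hdep w' x x' hx
    by_cases h : x ∈ A
    · have h' : x' ∈ A := hm ▸ h
      simp only [Set.indicator_of_mem h, Set.indicator_of_mem h', hd]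
    · have h' : x' ∉ A := hm ▸ h
      simp only [Set.indicator_of_notMem h, Set.indicator_of_notMem h']
  · intro w
    by_cases hw : w ∈ A
    · simp only [Set.indicator_of_mem hw]
      exact hB w hw
    · simp [Set.indicator_of_notMem hw]

/-- splitting, Bochner form (the function must be integrable on the product space) -/
lemma integral_split {t : ℕ} {H : (ℕ → G → ℝ≥0) → (ℕ → G → ℝ≥0) → ℝ}
    (hH : Measurable (Function.uncurry H)) (hdep : ∀ w', DepLt t (fun w => H w w')) :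
    ∫ w, H w (shift t w) ∂(env G ν)
      = ∫ p, H p.1 p.2 ∂((env G ν).prod (env G ν)) := by
  unfold env
  set m := Measure.pi (fun _ : G => ν)
  have hmp := measurePreserving_splice m t
  have hm1 : Measurable (fun w : ℕ → G → ℝ≥0 => H w (shift t w)) :=
    hH.comp (measurable_id.prodMk (measurable_shift t))
  calc ∫ w, H w (shift t w) ∂(iid m)
      = ∫ p, H (splice t p) (shift t (splice t p)) ∂((iid m).prod (iid m)) := by
        conv_lhs => rw [← hmp.map_eq]
        rw [integral_map hmp.measurable.aemeasurable hm1.aestronglyMeasurable]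
    _ = ∫ p, H p.1 p.2 ∂((iid m).prod (iid m)) := by
        apply integral_congr_ae
        refine ae_of_all _ (fun p => ?_)
        simp only
        rw [shift_splice]
        exact (hdep p.2).splice_eq p

end split

section tor

variable (M : ℕ) [NeZero M]

lemma measurable_ff (t : ℕ) : Measurable (ff M t) := measurable_evo_left _ _ _ _

lemma measurable_WW (t : ℕ) : Measurable (WW M t) := measurable_Z_left _ _ _ _

lemma measurable_mu (t : ℕ) : Measurable (mu M t) := by
  unfold mu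
  refine measurable_pi_lambda _ (fun x => ?_)
  simp only [Pi.smul_apply, smul_eq_mul]
  exact (measurable_WW M t).inv.mul ((measurable_pi_apply x).comp (measurable_ff M t))

lemma measurableSet_Good (n : ℕ → ℕ) (θ : ℝ) (i : ℕ) : MeasurableSet {w | Good M n θ i w} := by
  have : {w : ℕ → Tor M → ℝ≥0 | Good M n θ i w} =
      ⋂ j ∈ Finset.range i, {w | θ * WW M (n j) w ≤ WW M (n (j + 1)) w} := by
    ext w; simp [Good]
  rw [this]
  exact Finset.measurableSet_biInter _ (fun j _ =>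
    measurableSet_le ((measurable_WW M _).const_mul θ) (measurable_WW M _))

lemma measurable_Xh (n : ℕ → ℕ) (i : ℕ) : Measurable (Xh M n i) :=
  (measurable_Z_left _ _ _ _).comp (measurable_shift _)

lemma measurable_er (n : ℕ → ℕ) (i : ℕ) : Measurable (er M n i) := by
  unfold er
  refine (measurable_Z (st M) 1 (n (i + 1) - n i)).comp ((measurable_shift _).prodMk ?_)
  exact (measurable_mu M _).sub measurable_const

lemma measurable_Yt (n : ℕ → ℕ) (θ : ℝ) (i : ℕ) : Measurable (Yt M n θ i) := by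
  unfold Yt
  exact Measurable.ite (measurableSet_le measurable_const (measurable_Xh M n i))
    (Real.measurable_log.comp (measurable_Xh M n i)) measurable_const

lemma ff_depLt (t : ℕ) : DepLt t (ff M t) := evo_depLt _ _ _ _

lemma WW_depLt (t : ℕ) : DepLt t (WW M t) := by
  intro x x' h
  have := ff_depLt M t x x' h
  unfold ff at this
  unfold WW Z
  rw [this]

lemma mu_depLt (t : ℕ) : DepLt t (mu M t) := by
  intro x x' h
  unfold mu
  rw [WW_depLt M t x x' h, ff_depLt M t x x' h]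

lemma Good_depLt {n : ℕ → ℕ} {i : ℕ} (hn : ∀ j ≤ i, n j ≤ n i) (θ : ℝ) :
    DepLt (n i) (fun w => Good M n θ i w) := by
  intro x x' h
  have h1 : ∀ j ≤ i, WW M (n j) x = WW M (n j) x' := fun j hj =>
    WW_depLt M (n j) x x' (fun k hk => h k (lt_of_lt_of_le hk (hn j hj)))
  simp only [Good, eq_iff_iff]
  constructor
  · intro hg j hj
    rw [← h1 j hj.le, ← h1 (j + 1) hj]; exact hg j hj
  · intro hg j hj
    rw [h1 j hj.le, h1 (j + 1) hj]; exact hg j hj

lemma WW_eq_sum (t : ℕ) (w : ℕ → Tor M → ℝ≥0) : WW M t w = ∑ x, ff M t w x := rfl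

lemma WW_zero (w : ℕ → Tor M → ℝ≥0) : WW M 0 w = 1 := by
  simp [WW, Z, evo, dl, Pi.single_apply]

lemma dl_nonneg {G : Type*} [DecidableEq G] (x y : G) : 0 ≤ dl x y := by
  unfold dl
  rw [Pi.single_apply]; split <;> norm_num

lemma sum_dl {G : Type*} [Fintype G] [DecidableEq G] (x : G) : ∑ y, dl x y = 1 := by
  simp [dl, Pi.single_apply]

lemma one_nonneg' {G : Type*} : ∀ x : G, 0 ≤ (1 : G → ℝ) x := fun _ => by simp

lemma ff_nonneg (t : ℕ) (w : ℕ → Tor M → ℝ≥0) (x : Tor M) : 0 ≤ ff M t w x :=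
  evo_nonneg _ _ one_nonneg' t w (dl_nonneg 0) x

lemma WW_nonneg (t : ℕ) (w : ℕ → Tor M → ℝ≥0) : 0 ≤ WW M t w :=
  Finset.sum_nonneg (fun x _ => ff_nonneg M t w x)

lemma mu_nonneg (t : ℕ) (w : ℕ → Tor M → ℝ≥0) (x : Tor M) : 0 ≤ mu M t w x := by
  unfold mu
  simp only [Pi.smul_apply, smul_eq_mul]
  exact mul_nonneg (inv_nonneg.mpr (WW_nonneg M t w)) (ff_nonneg M t w x)

lemma sum_mu (t : ℕ) (w : ℕ → Tor M → ℝ≥0) (h : WW M t w ≠ 0) : ∑ x, mu M t w x = 1 := by
  unfold mu
  simp only [Pi.smul_apply, smul_eq_mul, ← Finset.mul_sum, ← WW_eq_sum]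
  exact inv_mul_cancel₀ h

lemma ff_eq_smul_mu (t : ℕ) (w : ℕ → Tor M → ℝ≥0) (h : WW M t w ≠ 0) :
    ff M t w = WW M t w • mu M t w := by
  unfold mu; rw [smul_smul, mul_inv_cancel₀ h, one_smul]

lemma ff_split (t T : ℕ) (w : ℕ → Tor M → ℝ≥0) :
    ff M (t + T) w = evo (st M) 1 T (shift t w) (ff M t w) := evo_split _ _ _ _ _ _

lemma WW_split (t T : ℕ) (w : ℕ → Tor M → ℝ≥0) (h : WW M t w ≠ 0) :
    WW M (t + T) w = WW M t w * Z (st M) 1 T (shift t w) (mu M t w) := by
  rw [← Z_smul, ← ff_eq_smul_mu M t w h]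
  rw [WW_eq_sum, ff_split]; rfl

lemma mu_split (t T : ℕ) (w : ℕ → Tor M → ℝ≥0) (h : WW M t w ≠ 0) :
    mu M (t + T) w = (Z (st M) 1 T (shift t w) (mu M t w))⁻¹ •
      evo (st M) 1 T (shift t w) (mu M t w) := by
  have e : mu M (t + T) w = (WW M (t + T) w)⁻¹ • ff M (t + T) w := rfl
  rw [e, WW_split M t T w h, ff_split, ff_eq_smul_mu M t w h, evo_smul, smul_smul]
  congr 1
  rw [mul_inv, mul_comm (WW M t w)⁻¹, mul_assoc, inv_mul_cancel₀ h, mul_one]

lemma Good_zero (n : ℕ → ℕ) (θ : ℝ) (w : ℕ → Tor M → ℝ≥0) : Good M n θ 0 w :=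
  fun j hj => absurd hj (by omega)

lemma Good_succ (n : ℕ → ℕ) (θ : ℝ) (i : ℕ) (w : ℕ → Tor M → ℝ≥0) :
    Good M n θ (i + 1) w ↔ Good M n θ i w ∧ θ * WW M (n i) w ≤ WW M (n (i + 1)) w := by
  constructor
  · intro h
    exact ⟨fun j hj => h j (by omega), h i (by omega)⟩
  · rintro ⟨h1, h2⟩ j hj
    rcases Nat.lt_succ_iff_lt_or_eq.mp hj with h | h
    · exact h1 j h
    · rw [h]; exact h2

lemma Good.mono {n : ℕ → ℕ} {θ : ℝ} {i j : ℕ} {w : ℕ → Tor M → ℝ≥0} (h : Good M n θ i w)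
    (hj : j ≤ i) : Good M n θ j w := fun k hk => h k (by omega)

lemma Good.pow_le {n : ℕ → ℕ} (hn0 : n 0 = 0) {θ : ℝ} (hθ : 0 ≤ θ) {i : ℕ}
    {w : ℕ → Tor M → ℝ≥0} (h : Good M n θ i w) : θ ^ i ≤ WW M (n i) w := by
  induction i with
  | zero => rw [hn0, WW_zero, pow_zero]
  | succ i ih =>
    rw [Good_succ] at h
    calc θ ^ (i + 1) = θ * θ ^ i := by ring
      _ ≤ θ * WW M (n i) w := mul_le_mul_of_nonneg_left (ih h.1) hθ
      _ ≤ _ := h.2

lemma Good.pos {n : ℕ → ℕ} (hn0 : n 0 = 0) {θ : ℝ} (hθ : 0 < θ) {i : ℕ}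
    {w : ℕ → Tor M → ℝ≥0} (h : Good M n θ i w) : 0 < WW M (n i) w :=
  lt_of_lt_of_le (pow_pos hθ i) (h.pow_le M hn0 hθ.le)

/-- the block ratio is `Xh + er` -/
lemma ratio_eq {n : ℕ → ℕ} {i : ℕ} (hn : n i ≤ n (i + 1)) (w : ℕ → Tor M → ℝ≥0)
    (h : WW M (n i) w ≠ 0) :
    WW M (n (i + 1)) w = WW M (n i) w * (Xh M n i w + er M n i w) := by
  have e : n (i + 1) = n i + (n (i + 1) - n i) := by omega
  have h1 : Xh M n i w + er M n i w =
      Z (st M) 1 (n (i + 1) - n i) (shift (n i) w) (mu M (n i) w) := by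
    unfold Xh er
    rw [Z_sub]; ring
  rw [h1, ← WW_split M (n i) (n (i + 1) - n i) w h, ← e]

lemma q_nonneg (t : ℕ) (x : Tor M) : 0 ≤ q M t x := by
  unfold q
  induction t generalizing x with
  | zero => exact dl_nonneg 0 x
  | succ t ih =>
    rw [Function.iterate_succ_apply']
    exact step_nonneg _ _ one_nonneg' ih x

lemma sum_iterate_step {G : Type*} [Fintype G] [DecidableEq G] [AddCommGroup G]
    (st : Fin 4 → G) (t : ℕ) (F : G → ℝ) : ∑ x, (step st 1)^[t] F x = ∑ x, F x := by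
  induction t with
  | zero => rfl
  | succ t ih => rw [Function.iterate_succ_apply', sum_step_one, ih]

lemma sum_q (t : ℕ) : ∑ x, q M t x = 1 := by
  unfold q; rw [sum_iterate_step, sum_dl]

lemma q_add (s t : ℕ) : q M (s + t) = (step (st M) 1)^[t] (q M s) := by
  unfold q
  rw [← Function.iterate_add_apply, add_comm]

lemma iterate_step_sub {G : Type*} [Fintype G] [DecidableEq G] [AddCommGroup G]
    (st : Fin 4 → G) (a : G → ℝ) (t : ℕ) (F F' : G → ℝ) :
    (step st a)^[t] (F - F') = (step st a)^[t] F - (step st a)^[t] F' := by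
  induction t with
  | zero => rfl
  | succ t ih => simp only [Function.iterate_succ_apply', ih, step_sub]

lemma iterate_step_smul {G : Type*} [Fintype G] [DecidableEq G] [AddCommGroup G]
    (st : Fin 4 → G) (a : G → ℝ) (t : ℕ) (c : ℝ) (F : G → ℝ) :
    (step st a)^[t] (c • F) = c • (step st a)^[t] F := by
  induction t with
  | zero => rfl
  | succ t ih => simp only [Function.iterate_succ_apply', ih, step_smul]

lemma iterate_step_add {G : Type*} [Fintype G] [DecidableEq G] [AddCommGroup G]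
    (st : Fin 4 → G) (a : G → ℝ) (t : ℕ) (F F' : G → ℝ) :
    (step st a)^[t] (F + F') = (step st a)^[t] F + (step st a)^[t] F' := by
  induction t with
  | zero => rfl
  | succ t ih => simp only [Function.iterate_succ_apply', ih, step_add]

lemma sq_smul {G : Type*} [Fintype G] (c : ℝ) (F : G → ℝ) : sq (c • F) = c ^ 2 * sq F := by
  simp only [sq, Pi.smul_apply, smul_eq_mul, mul_pow, Finset.mul_sum]

lemma sq_nonneg' {G : Type*} [Fintype G] (F : G → ℝ) : 0 ≤ sq F :=
  Finset.sum_nonneg (fun x _ => _root_.sq_nonneg _)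

lemma En_nonneg (T : ℕ) (F : Tor M → ℝ) : 0 ≤ En M T F :=
  Finset.sum_nonneg (fun n _ => sq_nonneg' _)

lemma En_smul (T : ℕ) (c : ℝ) (F : Tor M → ℝ) : En M T (c • F) = c ^ 2 * En M T F := by
  simp only [En, iterate_step_smul, sq_smul, Finset.mul_sum]

lemma En_mono {T T' : ℕ} (h : T ≤ T') (F : Tor M → ℝ) : En M T F ≤ En M T' F :=
  Finset.sum_le_sum_of_subset_of_nonneg (Finset.Icc_subset_Icc_right h)
    (fun n _ _ => sq_nonneg' _)

/-- `‖F + F' + F''‖² ≤ 3 (…)` for the energy -/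
lemma En_add3_le (T : ℕ) (F F' F'' : Tor M → ℝ) :
    En M T (F + F' + F'') ≤ 3 * (En M T F + En M T F' + En M T F'') := by
  simp only [En, iterate_step_add, sq, Pi.add_apply]
  rw [← Finset.sum_add_distrib, ← Finset.sum_add_distrib, Finset.mul_sum]
  apply Finset.sum_le_sum; intro n _
  rw [← Finset.sum_add_distrib, ← Finset.sum_add_distrib, Finset.mul_sum]
  apply Finset.sum_le_sum; intro x _
  nlinarith [_root_.sq_nonneg ((step (st M) 1)^[n] F x - (step (st M) 1)^[n] F' x),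
    _root_.sq_nonneg ((step (st M) 1)^[n] F x - (step (st M) 1)^[n] F'' x),
    _root_.sq_nonneg ((step (st M) 1)^[n] F' x - (step (st M) 1)^[n] F'' x)]

lemma En_sub_le (T : ℕ) (F F' : Tor M → ℝ) :
    En M T (F - F') ≤ 2 * (En M T F + En M T F') := by
  simp only [En, iterate_step_sub, sq, Pi.sub_apply]
  rw [← Finset.sum_add_distrib, Finset.mul_sum]
  apply Finset.sum_le_sum; intro n _
  rw [← Finset.sum_add_distrib, Finset.mul_sum]
  apply Finset.sum_le_sum; intro x _
  nlinarith [_root_.sq_nonneg ((step (st M) 1)^[n] F x + (step (st M) 1)^[n] F' x)]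

lemma measurable_En (T : ℕ) : Measurable (En M T) := by
  have h : ∀ n : ℕ, Measurable (fun F : Tor M → ℝ => (step (st M) 1)^[n] F) := by
    intro n
    exact (measurable_step (st M) 1).iterate n
  unfold En sq
  refine Finset.measurable_sum _ (fun n _ => Finset.measurable_sum _ (fun x _ => ?_))
  exact ((measurable_pi_apply x).comp (h n)).pow_const 2

end tor

section grid

lemma Grid.mono_succ {Λ N K : ℕ} {n : ℕ → ℕ} (hΛ : 1 ≤ Λ) (h : Grid Λ N K n) {i : ℕ} (hi : i < K) :
    n i ≤ n (i + 1) := by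
  rcases Nat.eq_zero_or_pos i with h0 | h0
  · rw [h0, h.zero]; exact Nat.zero_le _
  · exact (Nat.le_mul_of_pos_left _ hΛ).trans (h.ratio i h0 hi).1

lemma Grid.mono {Λ N K : ℕ} {n : ℕ → ℕ} (hΛ : 1 ≤ Λ) (h : Grid Λ N K n) {i j : ℕ} (hij : i ≤ j)
    (hj : j ≤ K) : n i ≤ n j := by
  induction j, hij using Nat.le_induction with
  | base => exact le_rfl
  | succ j _ ih => exact (ih (by omega)).trans (h.mono_succ hΛ (by omega))

lemma Grid.le_N {Λ N K : ℕ} {n : ℕ → ℕ} (hΛ : 1 ≤ Λ) (h : Grid Λ N K n) {i : ℕ} (hi : i ≤ K) :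
    n i ≤ N := by
  have := h.mono hΛ hi le_rfl
  rwa [h.last] at this

lemma Grid.pos {Λ N K : ℕ} {n : ℕ → ℕ} (hΛ : 1 ≤ Λ) (h : Grid Λ N K n) {i : ℕ} (h1 : 1 ≤ i)
    (hi : i ≤ K) : 1 ≤ n i := h.one.1.trans (h.mono hΛ h1 hi)

end grid

end Pool.Agent.H95.QC
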