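import Mathlib
import Pool.Agent.H95.QC.Chain

/-!
# Module D3: fourth moments on the good events
-/

open MeasureTheory ProbabilityTheory Filter Topology
open scoped ENNReal NNReal BigOperators

set_option linter.unusedSectionVars false

namespace Pool.Agent.H95.QC

lemma nrm4_nonneg {M : ℕ} (x : Tor M) : 0 ≤ nrm4 x := by
  unfold nrm4; positivity

lemma nrm4_zero {M : ℕ} : nrm4 (0 : Tor M) = 0 := by
  simp [nrm4]

/-- on the good event the next endpoint distribution is the evolved one, up to a factor `≤ θ⁻¹` -/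
lemma mu_next {M : ℕ} [NeZero M] {n : ℕ → ℕ} (hn0 : n 0 = 0) {θ : ℝ} (hθ : 0 < θ) {i : ℕ}
    (hn : n i ≤ n (i + 1)) {w : ℕ → Tor M → ℝ≥0} (hg : Good M n θ (i + 1) w) :
    ∃ z : ℝ, 0 < z ∧ z ≤ θ⁻¹ ∧ mu M (n (i + 1)) w =
      z • evo (st M) 1 (n (i + 1) - n i) (shift (n i) w) (mu M (n i) w) := by
  rw [Good_succ] at hg
  have hpos := hg.1.pos M hn0 hθ
  have e : n (i + 1) = n i + (n (i + 1) - n i) := by omega
  have h1 := WW_split M (n i) (n (i + 1) - n i) w hpos.ne'
  have h2 := mu_split M (n i) (n (i + 1) - n i) w hpos.ne'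
  rw [← e] at h1 h2
  set z := Z (st M) 1 (n (i + 1) - n i) (shift (n i) w) (mu M (n i) w) with hz
  have hzθ : θ ≤ z := by
    have h3 := hg.2
    rw [h1, mul_comm θ] at h3
    exact le_of_mul_le_mul_left h3 hpos
  have hz0 : 0 < z := lt_of_lt_of_le hθ hzθ
  exact ⟨z⁻¹, inv_pos.mpr hz0, inv_anti₀ hθ hzθ, h2⟩

lemma sum_evo_nrm4_nonneg {M : ℕ} [NeZero M] (T : ℕ) (w : ℕ → Tor M → ℝ≥0) {F : Tor M → ℝ}
    (hF : ∀ x, 0 ≤ F x) : 0 ≤ ∑ x, evo (st M) 1 T w F x * nrm4 x :=
  Finset.sum_nonneg (fun x _ => mul_nonneg (evo_nonneg _ _ one_nonneg' T w hF x) (nrm4_nonneg x))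

lemma measurable_H4 {M : ℕ} [NeZero M] (T t : ℕ) (c : ℝ) :
    Measurable (Function.uncurry (fun (w w' : ℕ → Tor M → ℝ≥0) =>
      ENNReal.ofReal (c * ∑ x, evo (st M) 1 T w' (mu M t w) x * nrm4 x))) := by
  apply ENNReal.measurable_ofReal.comp
  apply Measurable.const_mul
  refine Finset.measurable_sum _ (fun x _ => ?_)
  apply Measurable.mul_const
  have h1 : Measurable (fun p : (ℕ → Tor M → ℝ≥0) × (ℕ → Tor M → ℝ≥0) =>
      evo (st M) 1 T p.2 (mu M t p.1)) :=
    (measurable_evo (st M) 1 T).comp (measurable_snd.prodMk ((measurable_mu M t).comp measurable_fst))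
  exact (measurable_pi_apply x).comp h1

theorem targetD3 (hP3 : TargetP3) : TargetD3 := by
  intro Λ θ hΛ hθ hθ1 hc
  refine ⟨32 / θ, by positivity, ?_⟩
  intro M N K _ n ν s hG hW i hi
  have hprob := hW.prob
  have hΛ1 : 1 ≤ Λ := by omega
  -- one step bound
  have hstep : ∀ i < K, ∫⁻ w in {w | Good M n θ (i + 1) w},
      ENNReal.ofReal (∑ x, mu M (n (i + 1)) w x * nrm4 x) ∂(env (Tor M) ν) ≤
      ENNReal.ofReal (2 * θ⁻¹) * ∫⁻ w in {w | Good M n θ i w},
        ENNReal.ofReal (∑ x, mu M (n i) w x * nrm4 x) ∂(env (Tor M) ν) +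
      ENNReal.ofReal (24 * θ⁻¹ * ((n (i + 1) - n i : ℕ) : ℝ) ^ 2) := by
    intro i hiK
    have hn := hG.mono_succ hΛ1 hiK
    set T := n (i + 1) - n i with hT
    have hsub : {w : ℕ → Tor M → ℝ≥0 | Good M n θ (i + 1) w} ⊆ {w | Good M n θ i w} :=
      fun w hw => ((Good_succ M n θ i w).mp hw).1
    calc ∫⁻ w in {w | Good M n θ (i + 1) w},
          ENNReal.ofReal (∑ x, mu M (n (i + 1)) w x * nrm4 x) ∂(env (Tor M) ν)
        ≤ ∫⁻ w in {w | Good M n θ (i + 1) w}, ENNReal.ofReal (θ⁻¹ *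
            ∑ x, evo (st M) 1 T (shift (n i) w) (mu M (n i) w) x * nrm4 x)
            ∂(env (Tor M) ν) := by
          apply setLIntegral_mono' (measurableSet_Good M n θ (i + 1))
          intro w hw
          obtain ⟨z, hz0, hz1, hz2⟩ := mu_next hG.zero hθ hn hw
          apply ENNReal.ofReal_le_ofReal
          rw [hz2]
          simp only [Pi.smul_apply, smul_eq_mul, mul_assoc, ← Finset.mul_sum]
          exact mul_le_mul_of_nonneg_right hz1
            (sum_evo_nrm4_nonneg _ _ (fun x => mu_nonneg M _ _ x))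
      _ ≤ ∫⁻ w in {w | Good M n θ i w}, ENNReal.ofReal (θ⁻¹ *
            ∑ x, evo (st M) 1 T (shift (n i) w) (mu M (n i) w) x * nrm4 x)
            ∂(env (Tor M) ν) := lintegral_mono_set hsub
      _ ≤ ∫⁻ w in {w | Good M n θ i w}, ENNReal.ofReal (θ⁻¹ *
            (2 * ∑ x, mu M (n i) w x * nrm4 x + 24 * (T : ℝ) ^ 2)) ∂(env (Tor M) ν) := by
          apply setLIntegral_split_le (t := n i) (measurableSet_Good M n θ i)
            (Good_depLt M (fun j hj => hG.mono hΛ1 hj hiK.le) θ)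
            (H := fun w w' => ENNReal.ofReal (θ⁻¹ *
              ∑ x, evo (st M) 1 T w' (mu M (n i) w) x * nrm4 x))
            (measurable_H4 T (n i) θ⁻¹)
          · intro w' x x' hx
            simp only
            rw [mu_depLt M (n i) x x' hx]
          · intro w hw
            have hpos := Good.pos M hG.zero hθ hw
            have h1 := hP3 M T ν s (mu M (n i) w) hW (fun x => mu_nonneg M _ _ x)
              (sum_mu M _ _ hpos.ne')
            simp_rw [ENNReal.ofReal_mul (inv_nonneg.mpr hθ.le)]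
            rw [lintegral_const_mul]
            · gcongr
            · apply ENNReal.measurable_ofReal.comp
              refine Finset.measurable_sum _ (fun x _ => ?_)
              exact ((measurable_pi_apply x).comp (measurable_evo_left _ _ _ _)).mul_const _
      _ = ∫⁻ w in {w | Good M n θ i w}, (ENNReal.ofReal (2 * θ⁻¹) *
            ENNReal.ofReal (∑ x, mu M (n i) w x * nrm4 x) +
            ENNReal.ofReal (24 * θ⁻¹ * (T : ℝ) ^ 2)) ∂(env (Tor M) ν) := by
          apply lintegral_congr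
          intro w
          have h0 : 0 ≤ ∑ x, mu M (n i) w x * nrm4 x :=
            Finset.sum_nonneg (fun x _ => mul_nonneg (mu_nonneg M _ _ x) (nrm4_nonneg x))
          rw [← ENNReal.ofReal_mul (by positivity), ← ENNReal.ofReal_add (by positivity)
            (by positivity)]
          congr 1; ring
      _ ≤ _ := by
          rw [lintegral_add_right _ measurable_const, lintegral_const_mul]
          · gcongr
            rw [lintegral_const]
            calc _ ≤ ENNReal.ofReal (24 * θ⁻¹ * (T : ℝ) ^ 2) * 1 := by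
                  gcongr
                  rw [Measure.restrict_apply_univ]
                  exact prob_le_one
              _ = _ := mul_one _
          · apply ENNReal.measurable_ofReal.comp
            refine Finset.measurable_sum _ (fun x _ => ?_)
            exact ((measurable_pi_apply x).comp (measurable_mu M _)).mul_const _
  induction i, hi using Nat.le_induction with
  | base =>
    intro hK
    have h1 := hstep 0 (by omega)
    have h0 : ∀ w : ℕ → Tor M → ℝ≥0, ∑ x, mu M (n 0) w x * nrm4 x = 0 := by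
      intro w
      rw [hG.zero]
      have : mu M 0 w = dl 0 := by
        unfold mu
        rw [WW_zero, inv_one, one_smul]; rfl
      rw [this]
      simp [dl, Pi.single_apply, nrm4_zero]
    simp only [h0, ENNReal.ofReal_zero, lintegral_zero, mul_zero, zero_add] at h1
    refine h1.trans (ENNReal.ofReal_le_ofReal ?_)
    rw [hG.zero, Nat.sub_zero]
    have : 24 * θ⁻¹ ≤ 32 / θ := by
      rw [← div_eq_mul_inv]; gcongr; norm_num
    gcongr
  | succ i hi ih =>
    intro hiK
    have ih' := ih (by omega)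
    have h1 := hstep i (by omega)
    refine h1.trans ?_
    calc ENNReal.ofReal (2 * θ⁻¹) * ∫⁻ w in {w | Good M n θ i w},
          ENNReal.ofReal (∑ x, mu M (n i) w x * nrm4 x) ∂(env (Tor M) ν) +
          ENNReal.ofReal (24 * θ⁻¹ * ((n (i + 1) - n i : ℕ) : ℝ) ^ 2)
        ≤ ENNReal.ofReal (2 * θ⁻¹) * ENNReal.ofReal (32 / θ * (n i : ℝ) ^ 2) +
          ENNReal.ofReal (24 * θ⁻¹ * ((n (i + 1) - n i : ℕ) : ℝ) ^ 2) := by gcongr
      _ = ENNReal.ofReal (2 * θ⁻¹ * (32 / θ * (n i : ℝ) ^ 2) +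
          24 * θ⁻¹ * ((n (i + 1) - n i : ℕ) : ℝ) ^ 2) := by
          rw [← ENNReal.ofReal_mul (by positivity), ← ENNReal.ofReal_add (by positivity)
            (by positivity)]
      _ ≤ _ := by
          apply ENNReal.ofReal_le_ofReal
          have hr := (hG.ratio i hi (by omega)).1
          have hr' : (Λ : ℝ) * n i ≤ n (i + 1) := by exact_mod_cast hr
          have hT : ((n (i + 1) - n i : ℕ) : ℝ) ≤ n (i + 1) := by
            exact_mod_cast Nat.sub_le _ _
          have hT2 : ((n (i + 1) - n i : ℕ) : ℝ) ^ 2 ≤ (n (i + 1) : ℝ) ^ 2 := by gcongr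
          have h2 : ((Λ : ℝ) * n i) ^ 2 ≤ (n (i + 1) : ℝ) ^ 2 := by gcongr
          have h3 : 8 * (n i : ℝ) ^ 2 ≤ θ * (n (i + 1) : ℝ) ^ 2 := by
            calc 8 * (n i : ℝ) ^ 2 ≤ (θ * (Λ : ℝ) ^ 2) * (n i : ℝ) ^ 2 := by gcongr
              _ = θ * ((Λ : ℝ) * n i) ^ 2 := by ring
              _ ≤ _ := by gcongr
          have e1 : 2 * θ⁻¹ * (32 / θ * (n i : ℝ) ^ 2) = 8 * (n i : ℝ) ^ 2 * (8 / θ ^ 2) := by
            field_simp; ring
          have e2 : 8 * (n i : ℝ) ^ 2 * (8 / θ ^ 2) ≤ θ * (n (i + 1) : ℝ) ^ 2 * (8 / θ ^ 2) := by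
            gcongr
          have e3 : θ * (n (i + 1) : ℝ) ^ 2 * (8 / θ ^ 2) = 8 / θ * (n (i + 1) : ℝ) ^ 2 := by
            field_simp
          have e4 : 24 * θ⁻¹ * ((n (i + 1) - n i : ℕ) : ℝ) ^ 2 ≤ 24 / θ * (n (i + 1) : ℝ) ^ 2 := by
            rw [← div_eq_mul_inv]; gcongr
          have e5 : 32 / θ * (n (i + 1) : ℝ) ^ 2 = 8 / θ * (n (i + 1) : ℝ) ^ 2 +
            24 / θ * (n (i + 1) : ℝ) ^ 2 := by ring
          linarith

end Pool.Agent.H95.QC
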