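import Mathlib
import Pool.Agent.H95.QC.Targets

/-!
# A central limit theorem adapted to the block variables
-/

open MeasureTheory ProbabilityTheory Filter Topology
open scoped ENNReal NNReal BigOperators

namespace Pool.Agent.H95.QC

universe u

/-- the Lindeberg condition for the block variables -/
theorem abstract_clt (hL : TargetL.{u}) {Ω : Type u} [MeasurableSpace Ω] (P : Measure Ω)
    [IsProbabilityMeasure P] (K : ℕ → ℕ) (Y : ℕ → ℕ → Ω → ℝ) (v : ℕ → ℕ → ℝ) (l : ℕ → ℝ)
    (m₀ C c : ℝ) (hm₀ : 0 ≤ m₀) (hC : 0 < C) (hc : 0 < c)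
    (hmeas : ∀ N i, Measurable (Y N i)) (hind : ∀ N, iIndepFun (Y N) P)
    (hLp : ∀ N i, MemLp (Y N i) 2 P)
    (hlow : ∀ᶠ N in atTop, ∀ i < K N, ∀ o, - m₀ ≤ Y N i o)
    (hv : ∀ᶠ N in atTop, ∀ i < K N, v N i ≤ 1)
    (hsq : ∀ᶠ N in atTop, ∀ i < K N, ∫ o, Y N i o ^ 2 ∂P ≤ C * v N i)
    (htail : ∀ᶠ N in atTop, ∀ i < K N, ∀ h : ℝ, 1 ≤ h →
      ∫ o in {o | h < Y N i o}, Y N i o ^ 2 ∂P ≤ C * Real.exp (-h) * v N i)
    (hsum : ∀ᶠ N in atTop, ∑ i ∈ Finset.range (K N), v N i ≤ C * (1 + l N))
    (hvar : ∀ᶠ N in atTop, c * l N - C ≤ ∑ i ∈ Finset.range (K N), variance (Y N i) P)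
    (hl : Tendsto l atTop atTop) :
    TendstoInDistribution (fun N o => ∑ i ∈ Finset.range (K N),
      (√(∑ i ∈ Finset.range (K N), variance (Y N i) P))⁻¹ * (Y N i o - ∫ o, Y N i o ∂P)) atTop
      (id : ℝ → ℝ) (fun _ => P) (gaussianReal 0 1) := by
  set S : ℕ → ℝ := fun N => √(∑ i ∈ Finset.range (K N), variance (Y N i) P) with hS
  have hSsq : ∀ N, S N ^ 2 = ∑ i ∈ Finset.range (K N), variance (Y N i) P := fun N =>
    Real.sq_sqrt (Finset.sum_nonneg (fun i _ => variance_nonneg _ _))
  have hS0 : ∀ N, 0 ≤ S N := fun N => Real.sqrt_nonneg _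
  have hlin : Tendsto (fun N => c * l N - C) atTop atTop :=
    tendsto_atTop_add_const_right _ _ (hl.const_mul_atTop hc)
  have hS2top : Tendsto (fun N => S N ^ 2) atTop atTop := by
    refine tendsto_atTop_mono' _ ?_ hlin
    filter_upwards [hvar] with N hN
    rw [hSsq]; exact hN
  have hStop : Tendsto S atTop atTop := by
    refine tendsto_atTop.mpr (fun b => ?_)
    filter_upwards [hS2top.eventually_ge_atTop (b ^ 2)] with N hN
    by_contra hcon
    push Not at hcon
    have := pow_lt_pow_left₀ hcon (hS0 N) (n := 2) (by norm_num)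
    linarith
  have hint : ∀ N i, Integrable (Y N i) P := fun N i => (hLp N i).integrable (by norm_num)
  apply hL Ω P K (fun N i o => (S N)⁻¹ * (Y N i o - ∫ o, Y N i o ∂P))
  · intro N i
    exact ((hmeas N i).sub_const _).const_mul _
  · intro N
    exact (hind N).comp (fun i y => (S N)⁻¹ * (y - ∫ o, Y N i o ∂P)) (fun i => by fun_prop)
  · intro N i
    exact ((hLp N i).sub (memLp_const _)).const_mul _
  · intro N i
    rw [integral_const_mul, integral_sub (hint N i) (integrable_const _)]
    simp
  · -- the variances sum to one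
    have h1 : ∀ N i, ∫ o, ((S N)⁻¹ * (Y N i o - ∫ o, Y N i o ∂P)) ^ 2 ∂P =
        (S N ^ 2)⁻¹ * variance (Y N i) P := by
      intro N i
      rw [variance_eq_integral (hmeas N i).aemeasurable, ← integral_const_mul]
      congr 1
      funext o
      rw [mul_pow, inv_pow]
    simp_rw [h1, ← Finset.mul_sum]
    refine (tendsto_congr' ?_).mpr tendsto_const_nhds
    filter_upwards [hStop.eventually_gt_atTop 0] with N hN
    rw [← hSsq]
    exact inv_mul_cancel₀ (by positivity)
  · -- the Lindeberg condition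
    intro ε hε
    -- bound on the means
    have hmean : ∀ᶠ N in atTop, ∀ i < K N, |∫ o, Y N i o ∂P| ≤ C + 1 := by
      filter_upwards [hsq, hv] with N h1 h2 i hi
      have h3 : (∫ o, Y N i o ∂P) ^ 2 ≤ ∫ o, Y N i o ^ 2 ∂P := by
        have := variance_nonneg (Y N i) P
        rw [variance_eq_sub (hLp N i)] at this
        simp only [Pi.pow_apply] at this
        linarith
      have h4 : (∫ o, Y N i o ∂P) ^ 2 ≤ C := by
        have h5 := h1 i hi
        have h6 := mul_le_mul_of_nonneg_left (h2 i hi) hC.le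
        linarith
      rw [← sq_le_sq₀ (abs_nonneg _) (by linarith), sq_abs]
      nlinarith
    -- the threshold
    have hbig : ∀ᶠ N in atTop, max (2 * (m₀ + C + 1)) 2 / ε ≤ S N :=
      hStop.eventually_ge_atTop _
    have hbound : ∀ᶠ N in atTop, ∑ i ∈ Finset.range (K N),
        ∫ o in {o | ε < |(S N)⁻¹ * (Y N i o - ∫ o, Y N i o ∂P)|},
          ((S N)⁻¹ * (Y N i o - ∫ o, Y N i o ∂P)) ^ 2 ∂P ≤
        4 * C ^ 2 * ((1 + l N) / S N ^ 2) * Real.exp (-(ε * S N / 2)) := by
      filter_upwards [hmean, hbig, htail, hlow, hsum, hStop.eventually_gt_atTop 0, hv, hsq]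
        with N hmean hbig htail hlow hsum hSpos hv hsq
      have hbig' : max (2 * (m₀ + C + 1)) 2 ≤ ε * S N := by
        rw [div_le_iff₀ hε] at hbig; linarith
      have hb1 : 2 * (m₀ + C + 1) ≤ ε * S N := (le_max_left _ _).trans hbig'
      have hb2 : 2 ≤ ε * S N := (le_max_right _ _).trans hbig'
      have hterm : ∀ i ∈ Finset.range (K N),
          ∫ o in {o | ε < |(S N)⁻¹ * (Y N i o - ∫ o, Y N i o ∂P)|},
          ((S N)⁻¹ * (Y N i o - ∫ o, Y N i o ∂P)) ^ 2 ∂P ≤
          (4 * C * Real.exp (-(ε * S N / 2)) / S N ^ 2) * v N i := by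
        intro i hi
        have hi' := Finset.mem_range.mp hi
        set m := ∫ o, Y N i o ∂P with hm
        have hmle := hmean i hi'
        rw [abs_le] at hmle
        have hsub : {o | ε < |(S N)⁻¹ * (Y N i o - m)|} ⊆ {o | ε * S N / 2 < Y N i o} := by
          intro o ho
          simp only [Set.mem_setOf_eq] at ho ⊢
          rw [abs_mul, abs_inv, abs_of_pos hSpos, lt_inv_mul_iff₀ hSpos] at ho
          rcases lt_abs.mp ho with h | h
          · linarith [hmle.2]
          · have := hlow i hi' o
            linarith [hmle.1]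
        have hmS : MeasurableSet {o | ε * S N / 2 < Y N i o} :=
          measurableSet_lt measurable_const (hmeas N i)
        have hi2 : Integrable (fun o => ((S N)⁻¹ * (Y N i o - m)) ^ 2) P :=
          (((hLp N i).sub (memLp_const m)).const_mul (S N)⁻¹).integrable_sq
        have hi3 : Integrable (fun o => Y N i o ^ 2) P := (hLp N i).integrable_sq
        calc ∫ o in {o | ε < |(S N)⁻¹ * (Y N i o - m)|}, ((S N)⁻¹ * (Y N i o - m)) ^ 2 ∂P
            ≤ ∫ o in {o | ε * S N / 2 < Y N i o}, ((S N)⁻¹ * (Y N i o - m)) ^ 2 ∂P :=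
              setIntegral_mono_set hi2.integrableOn (ae_of_all _ (fun o => sq_nonneg _))
                (HasSubset.Subset.eventuallyLE hsub)
          _ ≤ ∫ o in {o | ε * S N / 2 < Y N i o}, (4 / S N ^ 2) * Y N i o ^ 2 ∂P := by
              apply setIntegral_mono_on hi2.integrableOn (hi3.const_mul _).integrableOn hmS
              intro o ho
              simp only [Set.mem_setOf_eq] at ho
              rw [mul_pow, inv_pow, div_mul_eq_mul_div, inv_mul_eq_div]
              apply div_le_div_of_nonneg_right _ (by positivity)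
              have h1 : |m| ≤ Y N i o := by
                rw [abs_le]; constructor <;> linarith [hmle.1, hmle.2]
              rw [abs_le] at h1
              have h2 : 0 ≤ Y N i o := by linarith
              nlinarith
          _ = (4 / S N ^ 2) * ∫ o in {o | ε * S N / 2 < Y N i o}, Y N i o ^ 2 ∂P :=
              integral_const_mul _ _
          _ ≤ (4 / S N ^ 2) * (C * Real.exp (-(ε * S N / 2)) * v N i) := by
              apply mul_le_mul_of_nonneg_left (htail i hi' _ (by linarith)) (by positivity)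
          _ = _ := by ring
      refine (Finset.sum_le_sum hterm).trans ?_
      rw [← Finset.mul_sum]
      calc (4 * C * Real.exp (-(ε * S N / 2)) / S N ^ 2) * ∑ i ∈ Finset.range (K N), v N i
          ≤ (4 * C * Real.exp (-(ε * S N / 2)) / S N ^ 2) * (C * (1 + l N)) :=
            mul_le_mul_of_nonneg_left hsum (by positivity)
        _ = _ := by ring
    -- the bound tends to zero
    have hratio : ∀ᶠ N in atTop, (1 + l N) / S N ^ 2 ≤ 2 / c + 1 := by
      filter_upwards [hvar, hl.eventually_ge_atTop (2 * C / c + 1), hStop.eventually_gt_atTop 0,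
        hS2top.eventually_ge_atTop 1] with N h1 h2 h3 h4
      rw [← hSsq] at h1
      rw [div_le_iff₀ (by positivity)]
      have h5 : c * l N / 2 ≤ S N ^ 2 := by
        have : 2 * C + c ≤ c * l N := by
          have := mul_le_mul_of_nonneg_left h2 hc.le
          have e : c * (2 * C / c + 1) = 2 * C + c := by field_simp
          linarith
        linarith
      have h6 : l N ≤ 2 / c * S N ^ 2 := by
        rw [div_mul_eq_mul_div, le_div_iff₀ hc]; linarith
      linarith
    have hlim : Tendsto (fun N => 4 * C ^ 2 * (2 / c + 1) * Real.exp (-(ε * S N / 2))) atTop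
        (𝓝 0) := by
      have h1 : Tendsto (fun N => ε * S N / 2) atTop atTop := by
        have := hStop.const_mul_atTop (by positivity : (0 : ℝ) < ε / 2)
        refine this.congr (fun N => by ring)
      have h2 := (Real.tendsto_exp_neg_atTop_nhds_zero.comp h1).const_mul
        (4 * C ^ 2 * (2 / c + 1))
      simpa using h2
    refine squeeze_zero' ?_ ?_ hlim
    · refine Eventually.of_forall (fun N => Finset.sum_nonneg (fun i _ => ?_))
      exact integral_nonneg (fun o => sq_nonneg _)
    · filter_upwards [hbound, hratio] with N h1 h2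
      refine h1.trans ?_
      gcongr

end Pool.Agent.H95.QC
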