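import Mathlib
import Pool.Agent.H95.QC.Chain

/-!
# Independence of functions of disjoint time blocks; moments of the block partition functions
-/

open MeasureTheory ProbabilityTheory Filter Topology
open scoped ENNReal NNReal BigOperators

set_option linter.unusedSectionVars false

namespace Pool.Agent.H95.QC

section indep

variable {G : Type} [Fintype G] [DecidableEq G] [AddCommGroup G]
variable {ν : Measure ℝ≥0} [IsProbabilityMeasure ν]

/-- functions of disjoint time blocks are independent -/
lemma iIndepFun_blocks {K : ℕ} {n : ℕ → ℕ} (hn : ∀ i < K, n i ≤ n (i + 1))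
    {g : ℕ → (ℕ → G → ℝ≥0) → ℝ} (hg : ∀ i, Measurable (g i))
    (hdep : ∀ i < K, DepLt (n (i + 1) - n i) (g i)) :
    iIndepFun (fun i w => if i < K then g i (shift (n i) w) else 0) (env G ν) := by
  have hmono : ∀ i j, i ≤ j → j ≤ K → n i ≤ n j := by
    intro i j hij
    induction j, hij using Nat.le_induction with
    | base => intro _; exact le_rfl
    | succ j _ ih => intro hj; exact (ih (by omega)).trans (hn j (by omega))
  set f : ℕ → (ℕ → G → ℝ≥0) → ℝ := fun i w => if i < K then g i (shift (n i) w) else 0 with hf
  have hfm : ∀ i, Measurable (f i) := by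
    intro i
    by_cases h : i < K
    · have : f i = fun w => g i (shift (n i) w) := by funext w; simp [hf, h]
      rw [this]; exact (hg i).comp (measurable_shift _)
    · have : f i = fun _ => 0 := by funext w; simp [hf, h]
      rw [this]; exact measurable_const
  rw [iIndepFun_iff_measure_inter_preimage_eq_mul]
  intro S
  induction S using Finset.induction_on_max with
  | empty => intro sets _; simp
  | insert a S' hmax ih =>
    intro sets hsets
    have ha : a ∉ S' := fun h => lt_irrefl _ (hmax a h)
    have ih' := ih (sets := sets) (fun i hi => hsets i (Finset.mem_insert_of_mem hi))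
    rw [Finset.prod_insert ha, Finset.set_biInter_insert, ← ih', Set.inter_comm]
    have hAm : MeasurableSet (⋂ i ∈ S', f i ⁻¹' sets i) :=
      Finset.measurableSet_biInter _ (fun i hi => hfm i (hsets i (Finset.mem_insert_of_mem hi)))
    by_cases haK : a < K
    · have hB : f a ⁻¹' sets a = shift (n a) ⁻¹' (g a ⁻¹' sets a) := by
        ext w; simp [hf, haK]
      have hBm : MeasurableSet (g a ⁻¹' sets a) := hg a (hsets a (Finset.mem_insert_self _ _))
      have hdepA : DepLt (n a) (fun w => w ∈ ⋂ i ∈ S', f i ⁻¹' sets i) := by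
        intro x x' hx
        have key : ∀ i ∈ S', f i x = f i x' := by
          intro i hi
          have hia := hmax i hi
          have hiK : i < K := lt_trans hia haK
          simp only [hf, hiK, if_true]
          apply hdep i hiK
          intro k hk
          simp only [shift_apply]
          apply hx
          have h1 := hmono (i + 1) a hia haK.le
          have h2 := hn i hiK
          omega
        simp only [Set.mem_iInter, Set.mem_preimage, eq_iff_iff]
        constructor
        · intro h i hi; rw [← key i hi]; exact h i hi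
        · intro h i hi; rw [key i hi]; exact h i hi
      rw [hB]
      unfold env
      rw [measure_inter_shift _ hdepA hAm hBm, measure_shift_preimage _ _ hBm, mul_comm]
    · have hconst : f a = fun _ => 0 := by funext w; simp [hf, haK]
      rw [hconst]
      by_cases h0 : (0 : ℝ) ∈ sets a
      · simp [Set.preimage_const_of_mem h0]
      · simp [Set.preimage_const_of_notMem h0]

end indep

section moments

variable {M : ℕ} [NeZero M] {ν : Measure ℝ≥0} {s : ℝ}

lemma Z_depLt {G : Type*} [Fintype G] [DecidableEq G] [AddCommGroup G] (st : Fin 4 → G)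
    (a : G → ℝ) (T : ℕ) (F : G → ℝ) : DepLt T (fun w => Z st a T w F) := by
  intro x x' h
  have := evo_depLt st a T F x x' h
  simp only at this
  simp only [Z, this]

lemma En_q (hK1 : TargetK1) {t T : ℕ} (h : 2 * (t + T) < M) :
    En M T (q M t) = Rn (t + T) - Rn t := by
  induction T with
  | zero => simp [En]
  | succ T ih =>
    have e : En M (T + 1) (q M t) = En M T (q M t) + sq ((step (st M) 1)^[T + 1] (q M t)) := by
      simp [En, Finset.sum_Icc_succ_top]
    rw [e, ih (by omega), ← q_add, hK1 M _ (by omega)]
    have e2 : t + (T + 1) = (t + T) + 1 := by ring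
    rw [e2, Rn_succ]; ring

/-- the block partition function has variance at most `(s/D) (R(t+T) - R(t))` -/
lemma Xh_lintegral (hK1 : TargetK1) (hP2 : TargetP2) (h : Wt ν s) {n : ℕ → ℕ} {i : ℕ}
    (hn : n i ≤ n (i + 1)) (hM : 2 * n (i + 1) < M) (hD : 0 < 1 - s * Rn (n (i + 1))) :
    ∫⁻ w, ENNReal.ofReal ((Xh M n i w - 1) ^ 2) ∂(env (Tor M) ν) ≤
      ENNReal.ofReal (s / (1 - s * Rn (n (i + 1))) * (Rn (n (i + 1)) - Rn (n i))) := by
  have hprob := h.prob
  have hDT : 1 - s * Rn (n (i + 1)) ≤ 1 - s * Rn (n (i + 1) - n i) :=
    D_anti h.nonneg (Nat.sub_le _ _)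
  have h1 := hP2 M (n (i + 1) - n i) ν s (q M (n i)) h (lt_of_lt_of_le hD hDT) (by omega)
  rw [sum_q, En_q hK1 (by omega)] at h1
  have e : n i + (n (i + 1) - n i) = n (i + 1) := by omega
  rw [e] at h1
  have h2 : ∫⁻ w, ENNReal.ofReal ((Xh M n i w - 1) ^ 2) ∂(env (Tor M) ν) =
      ∫⁻ w, ENNReal.ofReal ((Z (st M) 1 (n (i + 1) - n i) w (q M (n i)) - 1) ^ 2)
        ∂(env (Tor M) ν) := by
    have hmp : MeasurePreserving (shift (n i)) (env (Tor M) ν) (env (Tor M) ν) :=
      measurePreserving_shift _ _
    exact hmp.lintegral_comp (f := fun w => ENNReal.ofReal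
      ((Z (st M) 1 (n (i + 1) - n i) w (q M (n i)) - 1) ^ 2))
      (((measurable_Z_left _ _ _ _).sub_const 1).pow_const 2).ennreal_ofReal
  rw [h2]
  refine h1.trans (ENNReal.ofReal_le_ofReal ?_)
  apply mul_le_mul_of_nonneg_right _ (sub_nonneg.mpr (Rn_mono hn))
  exact div_le_div_of_nonneg_left h.nonneg hD hDT

end moments

end Pool.Agent.H95.QC
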