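import Mathlib
import Pool.Agent.H95.QC.Blocks

/-!
# Facts about one row of block variables
-/

open MeasureTheory ProbabilityTheory Filter Topology
open scoped ENNReal NNReal BigOperators

set_option linter.unusedSectionVars false

namespace Pool.Agent.H95.QC

section pointwise

/-- truncated logarithm -/
noncomputable def tl (θ x : ℝ) : ℝ := if 2 * θ ≤ x then Real.log x else 0

lemma measurable_tl (θ : ℝ) : Measurable (tl θ) := by
  unfold tl
  exact Measurable.ite (measurableSet_le measurable_const measurable_id)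
    Real.measurable_log measurable_const

lemma tl_sq_le {θ : ℝ} (hθ : 0 < θ) (hθ1 : 2 * θ < 1) (x : ℝ) :
    tl θ x ^ 2 ≤ 1 / (4 * θ ^ 2) * (x - 1) ^ 2 := by
  unfold tl
  split_ifs with h
  · have hx : 0 < x := by linarith
    have h1 : |Real.log x| ≤ (1 / (2 * θ)) * |x - 1| := by
      rcases le_total 1 x with h1 | h1
      · rw [abs_of_nonneg (Real.log_nonneg h1), abs_of_nonneg (by linarith)]
        have h2 := Real.log_le_sub_one_of_pos hx
        have h3 : 1 ≤ 1 / (2 * θ) := by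
          rw [le_div_iff₀ (by positivity)]; linarith
        nlinarith
      · rw [abs_of_nonpos (Real.log_nonpos hx.le h1), abs_of_nonpos (by linarith)]
        have h2 := Real.log_le_sub_one_of_pos (inv_pos.mpr hx)
        rw [Real.log_inv] at h2
        have h3 : x⁻¹ - 1 = (1 - x) / x := by field_simp
        rw [h3] at h2
        have h4 : (1 - x) / x ≤ (1 - x) / (2 * θ) :=
          div_le_div_of_nonneg_left (by linarith) (by positivity) h
        have h5 : (1 - x) / (2 * θ) = 1 / (2 * θ) * -(x - 1) := by ring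
        linarith
    calc Real.log x ^ 2 = |Real.log x| ^ 2 := (sq_abs _).symm
      _ ≤ ((1 / (2 * θ)) * |x - 1|) ^ 2 := by gcongr
      _ = _ := by rw [mul_pow, sq_abs]; ring
  · rw [zero_pow two_ne_zero]; positivity

lemma tl_lower {θ : ℝ} (hθ : 0 < θ) (hθ1 : 2 * θ < 1) (x : ℝ) :
    - (- Real.log (2 * θ)) ≤ tl θ x := by
  rw [neg_neg]
  unfold tl
  split_ifs with h
  · exact Real.log_le_log (by positivity) h
  · exact Real.log_nonpos (by positivity) hθ1.le

lemma tl_tail {θ x h : ℝ} (hθ : 0 < θ) (hh : 1 ≤ h) (hx : h < tl θ x) :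
    tl θ x ^ 2 ≤ 16 * Real.exp (-h) * (x - 1) ^ 2 := by
  unfold tl at hx ⊢
  split_ifs at hx ⊢ with h1
  · have hx0 : 0 < x := by linarith
    have hex : Real.exp h < x := (Real.lt_log_iff_exp_lt hx0).mp hx
    have h2 : 2 ≤ x := by
      have := Real.add_one_le_exp h
      linarith
    -- log x ≤ 2 √x
    have h3 : Real.log x ≤ 2 * √x := by
      have h4 : Real.log √x ≤ √x - 1 := Real.log_le_sub_one_of_pos (Real.sqrt_pos.mpr hx0)
      rw [Real.log_sqrt hx0.le] at h4
      linarith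
    have h5 : Real.log x ^ 2 ≤ 4 * x := by
      calc Real.log x ^ 2 ≤ (2 * √x) ^ 2 :=
            pow_le_pow_left₀ (by linarith) h3 2
        _ = 4 * x := by rw [mul_pow, Real.sq_sqrt hx0.le]; norm_num
    have h6 : x ≤ Real.exp (-h) * x ^ 2 := by
      rw [Real.exp_neg, inv_mul_eq_div, le_div_iff₀ (Real.exp_pos h)]
      nlinarith
    have h7 : x ^ 2 ≤ 4 * (x - 1) ^ 2 := by nlinarith
    calc Real.log x ^ 2 ≤ 4 * x := h5
      _ ≤ 4 * (Real.exp (-h) * x ^ 2) := by linarith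
      _ ≤ 4 * (Real.exp (-h) * (4 * (x - 1) ^ 2)) := by gcongr
      _ = _ := by ring
  · linarith

end pointwise

section row

/-- block variables, zero outside of the grid -/
noncomputable def Yb (M K : ℕ) [NeZero M] (n : ℕ → ℕ) (θ : ℝ) (i : ℕ) (w : ℕ → Tor M → ℝ≥0) : ℝ :=
  if i < K then Yt M n θ i w else 0

lemma Yt_eq_tl (M : ℕ) [NeZero M] (n : ℕ → ℕ) (θ : ℝ) (i : ℕ) (w : ℕ → Tor M → ℝ≥0) :
    Yt M n θ i w = tl θ (Xh M n i w) := rfl

/-- parameters attached to the grid and the variance: `v_i = 1 / b_i` -/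
noncomputable def vv (n : ℕ → ℕ) (s : ℝ) (i : ℕ) : ℝ := s / (1 - s * Rn (n (i + 1)))

/-- all the facts about one row of block variables that enter the central limit theorem -/
structure RowFacts {Ω : Type*} [MeasurableSpace Ω] (P : Measure Ω) (K : ℕ) (Y : ℕ → Ω → ℝ)
    (v : ℕ → ℝ) (l m₀ C c : ℝ) : Prop where
  low : ∀ i < K, ∀ o, - m₀ ≤ Y i o
  v_le : ∀ i < K, v i ≤ 1
  sq_le : ∀ i < K, ∫ o, Y i o ^ 2 ∂P ≤ C * v i
  tail : ∀ i < K, ∀ h : ℝ, 1 ≤ h →
      ∫ o in {o | h < Y i o}, Y i o ^ 2 ∂P ≤ C * Real.exp (-h) * v i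
  sum_le : ∑ i ∈ Finset.range K, v i ≤ C * (1 + l)
  var_ge : c * l - C ≤ ∑ i ∈ Finset.range K, variance (Y i) P

lemma Yb_facts (hK1 : TargetK1) (hP2 : TargetP2) {M N K Λ : ℕ} [NeZero M] {n : ℕ → ℕ}
    {ν : Measure ℝ≥0} {s θ : ℝ} (hΛ : 2 ≤ Λ) (hθ : 0 < θ) (hθ1 : 2 * θ < 1) (hG : Grid Λ N K n)
    (hW : Wt ν s) (hs : 0 < s) (hb : 1 ≤ (1 - s * Rn N) / s) (hM : 8 * N < M) :
    (∀ i, Measurable (Yb M K n θ i)) ∧ iIndepFun (Yb M K n θ) (env (Tor M) ν) ∧
    (∀ i, MemLp (Yb M K n θ i) 2 (env (Tor M) ν)) := by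
  have hprob := hW.prob
  have hΛ1 : 1 ≤ Λ := by omega
  have hDN : 0 < 1 - s * Rn N := by
    by_contra hcon
    push Not at hcon
    have := div_nonpos_of_nonpos_of_nonneg hcon hs.le
    linarith
  have hmeas : ∀ i, Measurable (Yb M K n θ i) := by
    intro i
    unfold Yb
    by_cases h : i < K
    · simp only [h, if_true]; exact measurable_Yt M n θ i
    · simp only [h, if_false]; exact measurable_const
  refine ⟨hmeas, ?_, ?_⟩
  · have := iIndepFun_blocks (G := Tor M) (ν := ν) (K := K) (n := n)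
      (fun i hi => hG.mono_succ hΛ1 hi)
      (g := fun i w => tl θ (Z (st M) 1 (n (i + 1) - n i) w (q M (n i))))
      (fun i => (measurable_tl θ).comp (measurable_Z_left _ _ _ _))
      (fun i hi x x' h => by
        have := Z_depLt (st M) 1 (n (i + 1) - n i) (q M (n i)) x x' h
        simp only at this
        simp only [this])
    exact this
  · intro i
    by_cases h : i < K
    · have hn := hG.mono_succ hΛ1 h
      have hN : n (i + 1) ≤ N := hG.le_N hΛ1 h
      have hD : 0 < 1 - s * Rn (n (i + 1)) := lt_of_lt_of_le hDN (D_anti hs.le hN)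
      have h1 := Xh_lintegral (M := M) hK1 hP2 hW (i := i) hn (by omega) hD
      have h2 : MemLp (fun w => Xh M n i w - 1) 2 (env (Tor M) ν) := by
        rw [memLp_two_iff_integrable_sq ((measurable_Xh M n i).sub_const 1).aestronglyMeasurable]
        refine ⟨(((measurable_Xh M n i).sub_const 1).pow_const 2).aestronglyMeasurable, ?_⟩
        rw [hasFiniteIntegral_iff_ofReal (ae_of_all _ (fun w => sq_nonneg _))]
        exact lt_of_le_of_lt h1 ENNReal.ofReal_lt_top
      have e : Yb M K n θ i = fun w => tl θ (Xh M n i w) := by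
        funext w; simp only [Yb, h, if_true]; rfl
      rw [e]
      refine MemLp.of_le_mul (c := 1 / (2 * θ)) h2
        ((measurable_tl θ).comp (measurable_Xh M n i)).aestronglyMeasurable ?_
      refine ae_of_all _ (fun w => ?_)
      have h3 := tl_sq_le hθ hθ1 (Xh M n i w)
      rw [Real.norm_eq_abs, Real.norm_eq_abs]
      have h4 : |tl θ (Xh M n i w)| ^ 2 ≤ (1 / (2 * θ) * |Xh M n i w - 1|) ^ 2 := by
        rw [sq_abs, mul_pow, sq_abs]
        have : (1 / (2 * θ)) ^ 2 = 1 / (4 * θ ^ 2) := by field_simp; norm_num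
        rw [this]; exact h3
      exact (sq_le_sq₀ (abs_nonneg _) (by positivity)).mp h4
    · have e : Yb M K n θ i = fun w => 0 := by
        funext w; simp only [Yb, h, if_false]
      rw [e]; exact memLp_const 0

theorem row_facts (hK1 : TargetK1) (hP2 : TargetP2) (hND : TargetND) (hG2 : TargetG2)
    (hG4 : TargetG4) (hG5 : TargetG5) {Λ : ℕ} {θ C₃ : ℝ} (hΛ : 2 ≤ Λ) (hθ : 0 < θ)
    (hθ1 : 2 * θ < 1) (hLT : LowTail Λ θ) (hC₃ : 0 < C₃) :
    ∃ C c k₀ : ℝ, 0 < C ∧ 0 < c ∧ 0 < k₀ ∧ ∀ (M N K : ℕ) [NeZero M] (n : ℕ → ℕ)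
      (ν : Measure ℝ≥0) (s : ℝ), Grid Λ N K n → Wt ν s → 0 < s → k₀ ≤ 1 / s →
      1 ≤ (1 - s * Rn N) / s → 8 * N < M →
      Integrable (fun y : ℝ≥0 => |(y : ℝ) - 1| ^ 3) ν → ∫ y, |(y : ℝ) - 1| ^ 3 ∂ν ≤ C₃ * s →
      RowFacts (env (Tor M) ν) K (Yb M K n θ) (vv n s) (Real.log (1 / (1 - s * Rn N)))
        (- Real.log (2 * θ)) C c := by
  obtain ⟨cN, kN, hcN, hkN, hND'⟩ := hND Λ θ hΛ hθ hθ1 hLT C₃ hC₃
  obtain ⟨C4, hC4, hG4'⟩ := hG4 Λ hΛ
  obtain ⟨c5, C5, hc5, hC5, hG5'⟩ := hG5 Λ hΛ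
  set C1 : ℝ := 1 / (4 * θ ^ 2) * Λ with hC1
  have hΛ0 : (0 : ℝ) < Λ := by exact_mod_cast (by omega : 0 < Λ)
  have hC1pos : 0 < C1 := by positivity
  refine ⟨C1 + 16 * Λ + C4 + cN * C5, cN * c5, max kN C5, by positivity, by positivity,
    lt_max_of_lt_left hkN, ?_⟩
  intro M N K _ n ν s hG hW hs hk hb hM hi3 h3
  have hprob := hW.prob
  have hΛ1 : 1 ≤ Λ := by omega
  have hDN : 0 < 1 - s * Rn N := by
    by_contra hcon
    push Not at hcon
    have := div_nonpos_of_nonpos_of_nonneg hcon hs.le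
    linarith
  have hsD : s ≤ 1 - s * Rn N := by
    rw [le_div_iff₀ hs] at hb; linarith
  have hD : ∀ i < K, 0 < 1 - s * Rn (n (i + 1)) := fun i hi =>
    lt_of_lt_of_le hDN (D_anti hs.le (hG.le_N hΛ1 hi))
  have hvnn : ∀ i < K, 0 ≤ vv n s i := fun i hi => div_nonneg hs.le (hD i hi).le
  -- second moment of the block partition functions
  have hX : ∀ i < K, Integrable (fun w => (Xh M n i w - 1) ^ 2) (env (Tor M) ν) ∧
      ∫ w, (Xh M n i w - 1) ^ 2 ∂(env (Tor M) ν) ≤ Λ * vv n s i := by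
    intro i hi
    have hn := hG.mono_succ hΛ1 hi
    have hN : n (i + 1) ≤ N := hG.le_N hΛ1 hi
    have h1 := Xh_lintegral (M := M) hK1 hP2 hW (i := i) hn (by omega) (hD i hi)
    have hm : Measurable (fun w => (Xh M n i w - 1) ^ 2) :=
      ((measurable_Xh M n i).sub_const 1).pow_const 2
    have hint : Integrable (fun w => (Xh M n i w - 1) ^ 2) (env (Tor M) ν) := by
      refine ⟨hm.aestronglyMeasurable, ?_⟩
      rw [hasFiniteIntegral_iff_ofReal (ae_of_all _ (fun w => sq_nonneg _))]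
      exact lt_of_le_of_lt h1 ENNReal.ofReal_lt_top
    refine ⟨hint, ?_⟩
    rw [← ofReal_integral_eq_lintegral_ofReal hint (ae_of_all _ (fun w => sq_nonneg _))] at h1
    have hinc : Rn (n (i + 1)) - Rn (n i) ≤ Λ := by
      rcases Nat.eq_zero_or_pos i with h0 | h0
      · subst h0
        rw [hG.zero, Rn_zero, sub_zero]
        exact (hG2 Λ N K n hΛ hG).1
      · exact ((hG2 Λ N K n hΛ hG).2 i h0 hi).2
    have h0 : 0 ≤ s / (1 - s * Rn (n (i + 1))) * (Rn (n (i + 1)) - Rn (n i)) :=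
      mul_nonneg (hvnn i hi) (sub_nonneg.mpr (Rn_mono hn))
    have h2 := (ENNReal.ofReal_le_ofReal_iff h0).mp h1
    refine h2.trans ?_
    rw [mul_comm (Λ : ℝ)]
    exact mul_le_mul_of_nonneg_left hinc (hvnn i hi)
  have hY : ∀ i < K, Yb M K n θ i = fun w => tl θ (Xh M n i w) := by
    intro i hi; funext w; simp only [Yb, hi, if_true]; rfl
  obtain ⟨hYm, -, hYL⟩ := Yb_facts hK1 hP2 hΛ hθ hθ1 hG hW hs hb hM
  constructor
  · intro i hi o
    rw [hY i hi]
    exact tl_lower hθ hθ1 _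
  · intro i hi
    unfold vv
    rw [div_le_one (hD i hi)]
    exact hsD.trans (D_anti hs.le (hG.le_N hΛ1 hi))
  · intro i hi
    obtain ⟨h1, h2⟩ := hX i hi
    calc ∫ o, Yb M K n θ i o ^ 2 ∂(env (Tor M) ν)
        ≤ ∫ o, 1 / (4 * θ ^ 2) * (Xh M n i o - 1) ^ 2 ∂(env (Tor M) ν) := by
          apply integral_mono (hYL i).integrable_sq (h1.const_mul _)
          intro w
          simp only [hY i hi]
          exact tl_sq_le hθ hθ1 _
      _ = 1 / (4 * θ ^ 2) * ∫ o, (Xh M n i o - 1) ^ 2 ∂(env (Tor M) ν) :=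
          integral_const_mul _ _
      _ ≤ 1 / (4 * θ ^ 2) * (Λ * vv n s i) := by gcongr
      _ = C1 * vv n s i := by rw [hC1]; ring
      _ ≤ _ := by
          apply mul_le_mul_of_nonneg_right _ (hvnn i hi)
          have : 0 ≤ 16 * (Λ : ℝ) + C4 + cN * C5 := by positivity
          linarith
  · intro i hi h hh
    obtain ⟨h1, h2⟩ := hX i hi
    have hms : MeasurableSet {o | h < Yb M K n θ i o} := measurableSet_lt measurable_const (hYm i)
    calc ∫ o in {o | h < Yb M K n θ i o}, Yb M K n θ i o ^ 2 ∂(env (Tor M) ν)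
        ≤ ∫ o in {o | h < Yb M K n θ i o}, 16 * Real.exp (-h) * (Xh M n i o - 1) ^ 2
            ∂(env (Tor M) ν) := by
          apply setIntegral_mono_on (hYL i).integrable_sq.integrableOn
            (h1.const_mul _).integrableOn hms
          intro w hw
          simp only [Set.mem_ofPred_eq, hY i hi] at hw ⊢
          exact tl_tail hθ hh hw
      _ ≤ ∫ o, 16 * Real.exp (-h) * (Xh M n i o - 1) ^ 2 ∂(env (Tor M) ν) :=
          setIntegral_le_integral (h1.const_mul _) (ae_of_all _ (fun w => by positivity))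
      _ = 16 * Real.exp (-h) * ∫ o, (Xh M n i o - 1) ^ 2 ∂(env (Tor M) ν) :=
          integral_const_mul _ _
      _ ≤ 16 * Real.exp (-h) * (Λ * vv n s i) := by gcongr
      _ = (16 * Λ) * (Real.exp (-h) * vv n s i) := by ring
      _ ≤ (C1 + 16 * Λ + C4 + cN * C5) * (Real.exp (-h) * vv n s i) := by
          apply mul_le_mul_of_nonneg_right _ (mul_nonneg (Real.exp_pos _).le (hvnn i hi))
          have : 0 ≤ C1 + C4 + cN * C5 := by positivity
          linarith
      _ = _ := by ring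
  · have h1 := hG4' N K n s hG hs hb
    refine h1.trans ?_
    have hR : 0 ≤ s * Rn N := mul_nonneg hs.le (Rn_nonneg N)
    have hl : 0 ≤ 1 + Real.log (1 / (1 - s * Rn N)) := by
      have : 0 ≤ Real.log (1 / (1 - s * Rn N)) := by
        apply Real.log_nonneg
        rw [le_div_iff₀ hDN]; linarith
      linarith
    apply mul_le_mul_of_nonneg_right _ hl
    have : 0 ≤ C1 + 16 * (Λ : ℝ) + cN * C5 := by positivity
    linarith
  · have h1 := hG5' N K n s hG hs ((le_max_right _ _).trans hk) hb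
    set A := (Finset.range K).filter (fun i => 1 ≤ i ∧
        (1 / s) ^ (9 / 10 : ℝ) ≤ (1 - s * Rn (n (i + 1))) / s ∧ 1 / 4 ≤ s * Rn (n i)) with hA
    have h2 : ∀ i ∈ A, cN * (s / (1 - s * Rn (n (i + 1)))) ≤
        variance (Yb M K n θ i) (env (Tor M) ν) := by
      intro i hi
      rw [hA, Finset.mem_filter, Finset.mem_range] at hi
      obtain ⟨hiK, hi1, hi2, hi3'⟩ := hi
      have hn := hG.mono_succ hΛ1 hiK
      have hN : n (i + 1) ≤ N := hG.le_N hΛ1 hiK
      obtain ⟨hr1, hr2⟩ := hG.ratio i hi1 hiK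
      have e : n i + (n (i + 1) - n i) = n (i + 1) := by omega
      have h4 := hND' M (n i) (n (i + 1) - n i) ν s hW hs ((le_max_left _ _).trans hk) hi3 h3
        (hG.pos hΛ1 hi1 hiK.le) (by rw [e]; exact hr1) (by rw [e]; exact hr2)
        (by rw [e]; omega) (by rw [e]; exact hi2) hi3'
      rw [e] at h4
      refine h4.trans (le_of_eq ?_)
      rw [hY i hiK]
      have hmp : MeasurePreserving (shift (n i)) (env (Tor M) ν) (env (Tor M) ν) :=
        measurePreserving_shift _ _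
      have hm : Measurable (fun w : ℕ → Tor M → ℝ≥0 =>
          tl θ (Z (st M) 1 (n (i + 1) - n i) w (q M (n i)))) :=
        (measurable_tl θ).comp (measurable_Z_left _ _ _ _)
      have h5 := variance_map (μ := env (Tor M) ν) (Y := shift (n i))
        (X := fun w : ℕ → Tor M → ℝ≥0 => tl θ (Z (st M) 1 (n (i + 1) - n i) w (q M (n i))))
        (by rw [hmp.map_eq]; exact hm.aemeasurable) hmp.measurable.aemeasurable
      rw [hmp.map_eq] at h5
      exact h5
    calc cN * c5 * Real.log (1 / (1 - s * Rn N)) - (C1 + 16 * Λ + C4 + cN * C5)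
        ≤ cN * (c5 * Real.log (1 / (1 - s * Rn N)) - C5) := by
          have : 0 ≤ C1 + 16 * (Λ : ℝ) + C4 := by positivity
          linarith
      _ ≤ cN * ∑ i ∈ A, s / (1 - s * Rn (n (i + 1))) := by gcongr
      _ = ∑ i ∈ A, cN * (s / (1 - s * Rn (n (i + 1)))) := Finset.mul_sum _ _ _
      _ ≤ ∑ i ∈ A, variance (Yb M K n θ i) (env (Tor M) ν) := Finset.sum_le_sum h2
      _ ≤ _ := Finset.sum_le_sum_of_subset_of_nonneg (Finset.filter_subset _ _)
          (fun i _ _ => variance_nonneg _ _)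

end row

end Pool.Agent.H95.QC
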