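import Mathlib
import Pool.Agent.H95.QC.Row
import Pool.Agent.H95.QC.CLT

/-!
# Assembly of the quasi-critical central limit theorem
-/

open MeasureTheory ProbabilityTheory Filter Topology
open scoped ENNReal NNReal BigOperators

set_option linter.unusedSectionVars false

namespace Pool.Agent.H95.QC

universe u

section transfer

variable {Ω Ω' : Type*} [MeasurableSpace Ω] [MeasurableSpace Ω'] {P : Measure Ω} {Q : Measure Ω'}

lemma iIndepFun_comp_map {Φ : Ω → Ω'} (hΦ : Measurable Φ) (hmap : P.map Φ = Q) {Y : ℕ → Ω' → ℝ}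
    (hY : ∀ i, Measurable (Y i)) (h : iIndepFun Y Q) : iIndepFun (fun i o => Y i (Φ o)) P := by
  rw [iIndepFun_iff_measure_inter_preimage_eq_mul] at h ⊢
  intro S sets hsets
  have h1 := h S (sets := sets) hsets
  have e1 : (⋂ i ∈ S, (fun o => Y i (Φ o)) ⁻¹' sets i) = Φ ⁻¹' (⋂ i ∈ S, Y i ⁻¹' sets i) := by
    ext o; simp
  have hm : MeasurableSet (⋂ i ∈ S, Y i ⁻¹' sets i) :=
    Finset.measurableSet_biInter _ (fun i hi => hY i (hsets i hi))
  rw [e1, ← Measure.map_apply hΦ hm, hmap, h1]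
  apply Finset.prod_congr rfl
  intro i hi
  have e2 : (fun o => Y i (Φ o)) ⁻¹' sets i = Φ ⁻¹' (Y i ⁻¹' sets i) := rfl
  rw [e2, ← Measure.map_apply hΦ (hY i (hsets i hi)), hmap]

lemma RowFacts.comp {Φ : Ω → Ω'} (hΦ : Measurable Φ) (hmap : P.map Φ = Q) {K : ℕ}
    {Y : ℕ → Ω' → ℝ} (hY : ∀ i, Measurable (Y i)) {v : ℕ → ℝ} {l m₀ C c : ℝ}
    (h : RowFacts Q K Y v l m₀ C c) : RowFacts P K (fun i o => Y i (Φ o)) v l m₀ C c := by
  constructor
  · intro i hi o; exact h.low i hi _
  · exact h.v_le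
  · intro i hi
    have := h.sq_le i hi
    rw [← hmap, integral_map hΦ.aemeasurable ((hY i).pow_const 2).aestronglyMeasurable] at this
    exact this
  · intro i hi t ht
    have := h.tail i hi t ht
    rw [← hmap, setIntegral_map (measurableSet_lt measurable_const (hY i))
      ((hY i).pow_const 2).aestronglyMeasurable hΦ.aemeasurable] at this
    exact this
  · exact h.sum_le
  · refine h.var_ge.trans (le_of_eq ?_)
    apply Finset.sum_congr rfl
    intro i _
    have h5 := variance_map (μ := P) (Y := Φ) (X := Y i) (hY i).aemeasurable hΦ.aemeasurable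
    rw [hmap] at h5
    exact h5

end transfer

lemma iIndepFun_zero {Ω : Type*} [MeasurableSpace Ω] (P : Measure Ω) [IsProbabilityMeasure P] :
    iIndepFun (fun (_ : ℕ) (_ : Ω) => (0 : ℝ)) P := by
  rw [iIndepFun_iff_measure_inter_preimage_eq_mul]
  intro S
  induction S using Finset.induction_on with
  | empty => intro sets _; simp
  | insert a S' ha ih =>
    intro sets hsets
    have ih' := ih (sets := sets) (fun i hi => hsets i (Finset.mem_insert_of_mem hi))
    rw [Finset.prod_insert ha, Finset.set_biInter_insert, ← ih']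
    by_cases h0 : (0 : ℝ) ∈ sets a
    · simp [Set.preimage_const_of_mem h0]
    · simp [Set.preimage_const_of_notMem h0]

section asym

lemma log_le_Rn (hK0 : TargetK0) (N : ℕ) : Real.log N / 4 ≤ Rn N := by
  rcases Nat.eq_zero_or_pos N with h | h
  · subst h; simp [Rn_zero]
  have h1 : Real.log N ≤ (harmonic N : ℝ) := by
    refine le_trans ?_ (log_add_one_le_harmonic N)
    apply Real.log_le_log (by exact_mod_cast h)
    push_cast
    linarith
  have h2 : (harmonic N : ℝ) / 4 ≤ Rn N := by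
    rw [harmonic_eq_sum_Icc, Rn]
    push_cast
    rw [Finset.sum_div]
    apply Finset.sum_le_sum
    intro n hn
    rw [Finset.mem_Icc] at hn
    have := (hK0.2 n hn.1).1
    have hn0 : (0 : ℝ) < n := by exact_mod_cast hn.1
    calc (n : ℝ)⁻¹ / 4 = 1 / (4 * (n : ℝ)) := by field_simp
      _ ≤ _ := this
  linarith

lemma measurable_Wpath {Ω : Type*} [MeasurableSpace Ω] {ω : ℕ → ℤ × ℤ → Ω → ℝ}
    (hm : ∀ n x, Measurable (ω n x)) (β Λ : ℝ) (N : ℕ) :
    Measurable (fun o => Wpath (fun n x => ω n x o) β Λ N) := by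
  unfold Wpath
  refine (Finset.measurable_sum _ (fun e _ => ?_)).div_const _
  apply Real.measurable_exp.comp
  refine Finset.measurable_sum _ (fun n _ => ?_)
  exact ((hm n (pos e n)).const_mul β).sub_const Λ

end asym

/-- the quasi-critical central limit theorem, from the module statements -/
theorem main_clt (hL : TargetL.{u}) (hB : TargetB) (hT1 : TargetT1) (hT2 : TargetT2.{u})
    (hK0 : TargetK0) (hK1 : TargetK1) (hP2 : TargetP2) (hD5 : TargetD5) (hND : TargetND)
    (hG1 : TargetG1) (hG2 : TargetG2) (hG4 : TargetG4) (hG5 : TargetG5)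
    (hLT : ∃ (Λ : ℕ) (θ : ℝ), 2 ≤ Λ ∧ 0 < θ ∧ 2 * θ < 1 ∧ 8 ≤ θ * (Λ : ℝ) ^ 2 ∧ LowTail Λ θ)
    {Ω : Type u} [MeasurableSpace Ω] (P : Measure Ω) [IsProbabilityMeasure P]
    (μ : Measure ℝ) [IsProbabilityMeasure μ] (h2 : Integrable (fun x => x ^ 2) μ)
    (h0 : ∫ x, x ∂μ = 0) (h1 : ∫ x, x ^ 2 ∂μ = 1)
    (hexp : ∀ β : ℝ, 0 ≤ β → Integrable (fun x => Real.exp (β * x)) μ)
    (ω : ℕ → ℤ × ℤ → Ω → ℝ) (hm : ∀ n x, Measurable (ω n x))
    (hind : iIndepFun (fun p : ℕ × (ℤ × ℤ) => ω p.1 p.2) P) (hlaw : ∀ n x, P.map (ω n x) = μ)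
    (β : ℕ → ℝ) (hβ : ∀ N, 0 ≤ β N) (ϑ : ℕ → ℝ)
    (hcrit : ∀ᶠ N in atTop, sig2 μ (β N) = (1 / Rpath N) * (1 - ϑ N / Real.log N))
    (hϑ : Tendsto ϑ atTop atTop) (hϑ' : Tendsto (fun N => ϑ N / Real.log N) atTop (𝓝 0)) :
    ∃ c d : ℕ → ℝ, (∀ N, 0 < c N) ∧
      (∃ a A : ℝ, 0 < a ∧ ∀ᶠ N in atTop, a ≤ c N * √(Real.log (Real.log N / ϑ N)) ∧
        c N * √(Real.log (Real.log N / ϑ N)) ≤ A) ∧
      TendstoInDistribution (fun N o => c N *
        (Real.log (Wpath (fun n x => ω n x o) (β N) (Lam μ (β N)) N) - d N)) atTop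
        (id : ℝ → ℝ) (fun _ => P) (gaussianReal 0 1) := by
  obtain ⟨Λ, θ, hΛ, hθ, hθ1, hθΛ, hLT⟩ := hLT
  obtain ⟨hB1, C₃, s₀, hC₃, hs₀, hB2⟩ := hB μ h2 h0 h1 hexp
  obtain ⟨C, c, k₀, hC, hc, hk₀, hrow⟩ :=
    row_facts hK1 hP2 hND hG2 hG4 hG5 hΛ hθ hθ1 hLT hC₃
  have hD5' := hD5 Λ θ hΛ hθ hθ1 hθΛ hLT
  choose Bf hBf1 hBf using hD5'
  set s : ℕ → ℝ := fun N => sig2 μ (β N) with hs
  set D : ℕ → ℝ := fun N => 1 - s N * Rn N with hD
  set l : ℕ → ℝ := fun N => Real.log (1 / D N) with hl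
  -- the good indices
  set GoodN : ℕ → Prop := fun N => Λ ≤ N ∧ 0 < s N ∧ k₀ ≤ 1 / s N ∧ 1 ≤ D N / s N ∧ s N ≤ s₀
    with hGoodN
  set Wp : ℕ → Ω → ℝ := fun N o => Wpath (fun n x => ω n x o) (β N) (Lam μ (β N)) N with hWp
  have hWm : ∀ N, Measurable (Wp N) := fun N => measurable_Wpath hm _ _ _
  -- one row
  have key : ∀ N, ∃ (K : ℕ) (Y : ℕ → Ω → ℝ) (v : ℕ → ℝ), (∀ i, Measurable (Y i)) ∧
      iIndepFun Y P ∧ (∀ i, MemLp (Y i) 2 P) ∧ (GoodN N →
        RowFacts P K Y v (l N) (- Real.log (2 * θ)) C c ∧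
        ∀ (δ : ℝ) (hδ : 0 < δ), Bf δ hδ ≤ D N / s N →
          P {o | δ < |Real.log (Wp N o) - ∑ i ∈ Finset.range K, Y i o|} ≤ ENNReal.ofReal δ) := by
    intro N
    by_cases hg : GoodN N
    · obtain ⟨hgN, hgs, hgk, hgb, hgs0⟩ := hg
      obtain ⟨K, n, hG⟩ := hG1 Λ N hΛ hgN
      obtain ⟨hi3, h3⟩ := hB2 (β N) (hβ N) hgs0
      have hW := hB1 (β N) (hβ N)
      have hNZ : NeZero (8 * N + 8) := ⟨by omega⟩
      obtain ⟨Φ, hΦ, hmap, hΦW⟩ := hT2 Ω P μ ω hm hind hlaw (β N) N (8 * N + 8)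
        ⟨4 * N + 4, by ring⟩ (by omega)
      obtain ⟨hYm, hYi, hYL⟩ := Yb_facts (M := 8 * N + 8) hK1 hP2 hΛ hθ hθ1 hG hW hgs hgb
        (by omega)
      have hrf := hrow (8 * N + 8) N K n (wlaw μ (β N)) (s N) hG hW hgs hgk hgb (by omega) hi3 h3
      refine ⟨K, fun i o => Yb (8 * N + 8) K n θ i (Φ o), vv n (s N), fun i => (hYm i).comp hΦ,
        iIndepFun_comp_map hΦ hmap hYm hYi, fun i => ?_, fun _ => ⟨hrf.comp hΦ hmap hYm, ?_⟩⟩
      · have := hYL i
        rw [← hmap] at this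
        exact this.comp_measurePreserving ⟨hΦ, rfl⟩
      · intro δ hδ hBδ
        have h5 := hBf δ hδ (8 * N + 8) N K n (wlaw μ (β N)) (s N) hG hW hgs hBδ
          ⟨4 * N + 4, by ring⟩ (by omega)
        rw [← hmap, Measure.map_apply hΦ] at h5
        · refine le_trans (le_of_eq ?_) h5
          congr 1
          ext o
          simp only [Set.mem_ofPred_eq, Set.mem_preimage]
          have e1 : Wp N o = WW (8 * N + 8) N (Φ o) := hΦW o
          have e2 : ∑ i ∈ Finset.range K, Yb (8 * N + 8) K n θ i (Φ o) =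
              ∑ i ∈ Finset.range K, Yt (8 * N + 8) n θ i (Φ o) := by
            apply Finset.sum_congr rfl
            intro i hi
            simp only [Yb, Finset.mem_range.mp hi, if_true]
          rw [e1, e2]
        · apply measurableSet_lt measurable_const
          apply Measurable.abs
          exact (Real.measurable_log.comp (measurable_WW _ _)).sub
            (Finset.measurable_sum _ (fun i _ => measurable_Yt _ _ _ _))
    · refine ⟨0, fun _ _ => 0, fun _ => 0, fun _ => measurable_const, ?_, fun _ => memLp_const 0,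
        fun h => absurd h hg⟩
      exact iIndepFun_zero P
  choose K Y v hYm hYi hYL hgood using key
  -- asymptotics
  have hlogtop : Tendsto (fun N : ℕ => Real.log N) atTop atTop :=
    Real.tendsto_log_atTop.comp tendsto_natCast_atTop_atTop
  have hbasic : ∀ᶠ N : ℕ in atTop, D N = ϑ N / Real.log N ∧ 0 < s N ∧ 0 < D N ∧
      ϑ N / 4 ≤ D N / s N := by
    filter_upwards [hcrit, hϑ.eventually_gt_atTop 0, hlogtop.eventually_gt_atTop 0,
      hϑ'.eventually_lt_const (u := (1 : ℝ) / 2) (by norm_num)] with N h1 h2 h3 h4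
    have hR : 0 < Rn N := lt_of_lt_of_le (by positivity) (log_le_Rn hK0 N)
    rw [hT1 N] at h1
    have hD' : D N = ϑ N / Real.log N := by
      simp only [hD, hs, h1]
      field_simp
      ring
    have hs' : s N = (1 / Rn N) * (1 - ϑ N / Real.log N) := h1
    have hspos : 0 < s N := by
      rw [hs']
      have : 0 < 1 - ϑ N / Real.log N := by linarith
      positivity
    have hDpos : 0 < D N := by rw [hD']; positivity
    refine ⟨hD', hspos, hDpos, ?_⟩
    have hsR : s N * Rn N ≤ 1 := by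
      have : D N = 1 - s N * Rn N := rfl
      linarith
    rw [le_div_iff₀ hspos]
    have e1 : ϑ N = D N * Real.log N := by rw [hD']; field_simp
    have e2 : s N * (Real.log N / 4) ≤ 1 :=
      (mul_le_mul_of_nonneg_left (log_le_Rn hK0 N) hspos.le).trans hsR
    calc ϑ N / 4 * s N = D N * (s N * (Real.log N / 4)) := by rw [e1]; ring
      _ ≤ D N * 1 := mul_le_mul_of_nonneg_left e2 hDpos.le
      _ = D N := mul_one _
  have hbtop : Tendsto (fun N => D N / s N) atTop atTop := by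
    refine tendsto_atTop_mono' _ ?_ (hϑ.atTop_div_const (by norm_num : (0 : ℝ) < 4))
    filter_upwards [hbasic] with N hN
    exact hN.2.2.2
  have hktop : Tendsto (fun N => 1 / s N) atTop atTop := by
    refine tendsto_atTop_mono' _ ?_ hbtop
    filter_upwards [hbasic] with N hN
    obtain ⟨-, h1, -, -⟩ := hN
    apply div_le_div_of_nonneg_right _ h1.le
    have : 0 ≤ s N * Rn N := mul_nonneg h1.le (Rn_nonneg N)
    simp only [hD]; linarith
  have hl_eq : ∀ᶠ N in atTop, l N = Real.log (Real.log N / ϑ N) := by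
    filter_upwards [hbasic] with N hN
    simp only [hl]
    rw [hN.1, one_div_div]
  have hltop : Tendsto l atTop atTop := by
    have h1 : Tendsto (fun N : ℕ => (ϑ N / Real.log N)⁻¹) atTop atTop := by
      apply Tendsto.inv_tendsto_nhdsGT_zero
      rw [tendsto_nhdsWithin_iff]
      refine ⟨hϑ', ?_⟩
      filter_upwards [hbasic] with N hN
      rw [Set.mem_Ioi, ← hN.1]; exact hN.2.2.1
    refine (Real.tendsto_log_atTop.comp h1).congr' ?_
    filter_upwards [hl_eq] with N hN
    rw [hN, Function.comp_apply, inv_div]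
  have hgoodev : ∀ᶠ N in atTop, GoodN N := by
    filter_upwards [hbasic, eventually_ge_atTop Λ, hktop.eventually_ge_atTop k₀,
      hbtop.eventually_ge_atTop 1, hktop.eventually_ge_atTop (1 / s₀)] with N h1 h2 h3 h4 h5
    refine ⟨h2, h1.2.1, h3, h4, ?_⟩
    exact (one_div_le_one_div hs₀ h1.2.1).mp h5
  have hrows : ∀ᶠ N in atTop, RowFacts P (K N) (Y N) (v N) (l N) (- Real.log (2 * θ)) C c := by
    filter_upwards [hgoodev] with N hN
    exact (hgood N hN).1
  have hm₀ : 0 ≤ - Real.log (2 * θ) := by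
    have := Real.log_nonpos (by positivity : 0 ≤ 2 * θ) hθ1.le
    linarith
  -- the central limit theorem for the block variables
  set S : ℕ → ℝ := fun N => √(∑ i ∈ Finset.range (K N), variance (Y N i) P) with hS
  have hclt := abstract_clt hL P K Y v l (- Real.log (2 * θ)) C c hm₀ hC hc hYm hYi hYL
    (hrows.mono fun N h => h.low) (hrows.mono fun N h => h.v_le) (hrows.mono fun N h => h.sq_le)
    (hrows.mono fun N h => h.tail) (hrows.mono fun N h => h.sum_le)
    (hrows.mono fun N h => h.var_ge) hltop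
  have hSsq : ∀ N, S N ^ 2 = ∑ i ∈ Finset.range (K N), variance (Y N i) P := fun N =>
    Real.sq_sqrt (Finset.sum_nonneg (fun i _ => variance_nonneg _ _))
  have hS0 : ∀ N, 0 ≤ S N := fun N => Real.sqrt_nonneg _
  have hSlow : ∀ᶠ N in atTop, c * l N - C ≤ S N ^ 2 := by
    filter_upwards [hrows] with N hN
    rw [hSsq]; exact hN.var_ge
  have hSup : ∀ᶠ N in atTop, S N ^ 2 ≤ C * (C * (1 + l N)) := by
    filter_upwards [hrows] with N hN
    rw [hSsq]
    calc ∑ i ∈ Finset.range (K N), variance (Y N i) P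
        ≤ ∑ i ∈ Finset.range (K N), C * v N i := by
          apply Finset.sum_le_sum
          intro i hi
          refine le_trans ?_ (hN.sq_le i (Finset.mem_range.mp hi))
          have := variance_eq_sub (hYL N i)
          simp only [Pi.pow_apply] at this
          rw [this]
          linarith [sq_nonneg (∫ o, Y N i o ∂P)]
      _ = C * ∑ i ∈ Finset.range (K N), v N i := (Finset.mul_sum _ _ _).symm
      _ ≤ C * (C * (1 + l N)) := mul_le_mul_of_nonneg_left hN.sum_le hC.le
  have hS1 : ∀ᶠ N in atTop, 1 ≤ S N := by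
    filter_upwards [hSlow, hltop.eventually_ge_atTop ((C + 1) / c)] with N h1 h2
    have h3 : 1 ≤ S N ^ 2 := by
      have := mul_le_mul_of_nonneg_left h2 hc.le
      rw [mul_div_cancel₀ _ hc.ne'] at this
      linarith
    nlinarith [hS0 N]
  refine ⟨fun N => if 0 < S N then (S N)⁻¹ else 1,
    fun N => ∑ i ∈ Finset.range (K N), ∫ o, Y N i o ∂P, ?_, ?_, ?_⟩
  · intro N
    by_cases h : 0 < S N
    · simp only [h, if_true]; exact inv_pos.mpr h
    · simp only [h, if_false]; norm_num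
  · refine ⟨√(1 / (2 * C ^ 2)), √(2 / c), by positivity, ?_⟩
    filter_upwards [hSlow, hSup, hS1, hl_eq, hltop.eventually_ge_atTop (2 * C / c),
      hltop.eventually_ge_atTop 1] with N h1 h2 h3 h4 h5 h6
    have hSp : 0 < S N := by linarith
    simp only [hSp, if_true]
    rw [← h4]
    have e : (S N)⁻¹ * √(l N) = √(l N / S N ^ 2) := by
      rw [Real.sqrt_div' _ (sq_nonneg _), Real.sqrt_sq hSp.le, inv_mul_eq_div]
    rw [e]
    constructor
    · apply Real.sqrt_le_sqrt
      rw [div_le_div_iff₀ (by positivity) (by positivity)]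
      nlinarith
    · apply Real.sqrt_le_sqrt
      rw [div_le_div_iff₀ (by positivity) hc]
      have := mul_le_mul_of_nonneg_left h5 hc.le
      have e2 : c * (2 * C / c) = 2 * C := by field_simp
      nlinarith
  · apply tendstoInDistribution_of_tendstoInMeasure_sub _ _ hclt
    · rw [tendstoInMeasure_iff_norm]
      intro ε hε
      rw [ENNReal.tendsto_atTop_zero]
      intro δ hδ
      -- a real threshold
      obtain ⟨δ', hδ'0, hδ'⟩ : ∃ δ' : ℝ, 0 < δ' ∧ ENNReal.ofReal δ' ≤ δ := by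
        by_cases htop : δ = ⊤
        · exact ⟨1, one_pos, by rw [htop]; exact le_top⟩
        · exact ⟨δ.toReal, ENNReal.toReal_pos hδ.ne' htop, ENNReal.ofReal_toReal_le⟩
      set δ'' := min δ' (ε / 2) with hδ''
      have hδ''0 : 0 < δ'' := lt_min hδ'0 (by linarith)
      have hev : ∀ᶠ N in atTop, P {o | ε ≤ ‖((fun N o => (if 0 < S N then (S N)⁻¹ else 1) *
          (Real.log (Wp N o) - ∑ i ∈ Finset.range (K N), ∫ o, Y N i o ∂P)) -
          fun N o => ∑ i ∈ Finset.range (K N), (S N)⁻¹ * (Y N i o - ∫ o, Y N i o ∂P)) N o -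
          (0 : ℕ → Ω → ℝ) N o‖} ≤ δ := by
        filter_upwards [hgoodev, hS1, hbtop.eventually_ge_atTop (Bf δ'' hδ''0)] with N hg hSN hbN
        have hSp : 0 < S N := by linarith
        refine le_trans (measure_mono ?_) (((hgood N hg).2 δ'' hδ''0 hbN).trans
          ((ENNReal.ofReal_le_ofReal (min_le_left _ _)).trans hδ'))
        intro o ho
        simp only [Set.mem_ofPred_eq, Pi.sub_apply, hSp, if_true, Pi.zero_apply, sub_zero] at ho ⊢
        have e : (S N)⁻¹ * (Real.log (Wp N o) - ∑ i ∈ Finset.range (K N), ∫ o, Y N i o ∂P) -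
            ∑ i ∈ Finset.range (K N), (S N)⁻¹ * (Y N i o - ∫ o, Y N i o ∂P) =
            (S N)⁻¹ * (Real.log (Wp N o) - ∑ i ∈ Finset.range (K N), Y N i o) := by
          rw [← Finset.mul_sum, Finset.sum_sub_distrib]; ring
        rw [e, norm_mul, norm_inv, Real.norm_eq_abs, Real.norm_eq_abs, abs_of_pos hSp] at ho
        have h3 : (S N)⁻¹ * |Real.log (Wp N o) - ∑ i ∈ Finset.range (K N), Y N i o| ≤
            1 * |Real.log (Wp N o) - ∑ i ∈ Finset.range (K N), Y N i o| := by
          apply mul_le_mul_of_nonneg_right _ (abs_nonneg _)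
          exact inv_le_one_of_one_le₀ hSN
        have h4 : δ'' ≤ ε / 2 := min_le_right _ _
        linarith
      obtain ⟨N₀, hN₀⟩ := eventually_atTop.mp hev
      exact ⟨N₀, hN₀⟩
    · intro N
      apply Measurable.aemeasurable
      exact ((Real.measurable_log.comp (hWm N)).sub_const _).const_mul _

end Pool.Agent.H95.QC
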