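import Mathlib
import Pool.Agent.H95.QC.Final
import Pool.Agent.H95.QC.D3
import Pool.Agent.H62.QC.L
import Pool.Agent.H91.QC.B
import Pool.Agent.H97.QC.T1
import Pool.Agent.H97.QC.T2
import Pool.Agent.H58.QC.K0
import Pool.Agent.H58.QC.ND2
import Pool.Agent.H9.QC.K12
import Pool.Agent.H9.QC.X
import Pool.Agent.H9.QC.D2
import Pool.Agent.H42.QC.P
import Pool.Agent.H77.QC.E
import Pool.Agent.H77.QC.E3
import Pool.Agent.H87.QC.G
import Pool.Agent.H87.QC.G5
import Pool.Agent.H9.QC.D4
import Pool.Agent.H22.QC.D5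
import Pool.Agent.H22.QC.N
import Pool.Agent.H22.QC.ND1
import Pool.Agent.H58.QC.ND

open Pool.Agent

namespace Pool.Agent.H95.QC

theorem allK0 : TargetK0 := H58.QC.k0
theorem allK1 : TargetK1 := H9.QC.targetK1
theorem allK2 : TargetK2 := H9.QC.targetK2
theorem allE1 : TargetE1 := H77.QC.targetE1
theorem allE2 : TargetE2 := H77.QC.targetE2
theorem allE3 : TargetE3 := H77.QC.targetE3
theorem allE4 : TargetE4 := H42.QC.targetE4
theorem allE5 : TargetE5 := H42.QC.targetE5
theorem allP1 : TargetP1 := H42.QC.targetP1 allK0 allE2 allE3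
theorem allP2 : TargetP2 := H42.QC.targetP2 allE1
theorem allP3 : TargetP3 := H42.QC.targetP3
theorem allD2 : TargetD2 := H9.QC.targetD2_of allP1
theorem allD3 : TargetD3 := targetD3 allP3
theorem allND1 : TargetND1 := H22.QC.ND1.targetND1 allK0 allK1 allE1 allE2 allE5 allP2
theorem allND2 : TargetND2 := H58.QC.nd2 allK1 allE1
theorem allG1 : TargetG1 := H87.QC.targetG1
theorem allG2 : TargetG2 := H87.QC.targetG2
theorem allG3 : TargetG3 := H87.QC.targetG3
theorem allG4 : TargetG4 := H87.QC.targetG4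
theorem allG5 : TargetG5 := H87.QC.targetG5
theorem allD4 : TargetD4 := H9.QC.targetD4_of allE4 allP1 allP2 allD3
theorem allD5 : TargetD5 := H22.QC.D5.targetD5 allK1 allP2 allD4 allG2 allG3
theorem allT1 : TargetT1 := H97.QC.t1 allK1
theorem allND : TargetND := H58.QC.nd H22.QC.targetN allND1 allND2

end Pool.Agent.H95.QC
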